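import Pool.Agent.Work.MP_49847a_an.Cf.DbB

/-!
# Module Ibp: the integral of a derivative vanishes

Proof.  For a fixed vector `v` and `f` continuously differentiable with compact support, `∫ fderiv ℝ f w v = 0`
(Mathlib: `integral_bilinear_hasLineDerivAt_right_eq_neg_left_of_integrable` and relatives with the constant function or with a
cut-off which is `1` on the support, or Fubini and the one dimensional statement `integral_eq_zero_of_hasDerivAt_of_integrable`
along coordinate lines).  The measure is the volume of `Fin n → ℂ`, an additive Haar measure.
`db k f w` is the combination with the vectors `Pi.single k 1` and `Pi.single k I`.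
-/

namespace Pool.Agent.Work.MP_49847a_an

open MvPolynomial Filter Topology MeasureTheory

variable {n : ℕ} {f : (Fin n → ℂ) → ℂ}

private theorem ibp_one (hf : ContDiff ℝ 1 f) (hc : HasCompactSupport f) (v : Fin n → ℂ) :
    ∫ w, fderiv ℝ f w v = 0 := by
  have hint : Integrable f := hf.continuous.integrable_of_hasCompactSupport hc
  have hd : Continuous fun w => fderiv ℝ f w v :=
    (hf.continuous_fderiv one_ne_zero).clm_apply continuous_const
  have hcd : HasCompactSupport fun w => fderiv ℝ f w v :=
    hc.fderiv_apply (𝕜 := ℝ) v
  have hint' : Integrable fun w => fderiv ℝ f w v := hd.integrable_of_hasCompactSupport hcd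
  have key := integral_smul_fderiv_eq_neg_fderiv_smul_of_integrable (𝕜 := ℝ)
    (μ := (volume : Measure (Fin n → ℂ))) (f := fun _ => (1 : ℝ)) (g := f) (v := v)
    (by simp) (by simpa using hint') (by simpa using hint)
    (fun _ _ => differentiableAt_const _) (fun x _ => (hf.differentiable one_ne_zero) x)
  simpa using key

theorem int_db (hf : ContDiff ℝ 1 f) (hc : HasCompactSupport f) (k : Fin n) :
    ∫ w, db k f w = 0 := by
  have hI : ∀ v : Fin n → ℂ, Integrable fun w => fderiv ℝ f w v := by
    intro v
    have hd : Continuous fun w => fderiv ℝ f w v :=
      (hf.continuous_fderiv one_ne_zero).clm_apply continuous_const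
    exact hd.integrable_of_hasCompactSupport (hc.fderiv_apply (𝕜 := ℝ) v)
  unfold db
  rw [integral_div, integral_add (hI _) ((hI _).const_mul _), integral_const_mul, ibp_one hf hc,
    ibp_one hf hc]
  simp

end Pool.Agent.Work.MP_49847a_an
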