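import Pool.Agent.Work.MP_49847a_an.Cf.Bm
import Pool.Agent.Work.MP_49847a_an.Cf.Ibp

/-!
# Module CfT: the Cauchy-Fantappie formula

Proof.  Write `q w = ∑_j g w j (z_j - w_j)`.  `C ⊆ U`, `C` compact, `U` open: there is a smooth `ψ : (Fin n → ℂ) → ℝ` (or `ℂ`) which is `1` in a neighbourhood of `C` and
whose topological support is contained in `U` (Mathlib: `exists_contDiff_one_nhds_of_interior` / `exists_contMDiff_...` / `exists_smooth_one_nhds_of_subset_interior`, or
`exists_contDiff_tsupport_subset` and a finite cover, or convolution).  `z ∉ U`, so `ψ = 0` near `z`.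
Put `σ w = ψ w • (g w / q w) + (1 - ψ w) • bm z w`.  At every `w ≠ z` it is `C²` (on `U`: `q ≠ 0`; off the support of `ψ`: `σ = bm z` near `w`), and
`∑_j σ w j (z_j - w_j) = ψ + (1 - ψ) = 1` (`bm_pair`; for `w ∈ U` by `q ≠ 0`, for `w ∉ U` `ψ w = 0`).  So `∑_k db k (cfA σ k) w = 0` for all `w ≠ z` (`cf_div_zero`), and
`cfA σ k` is `C¹` there (`cfA_contDiffAt`).  Near every point `w` of `C`, `σ = g/q`, and `cfA σ k w = cfA g k w / q w^n` (`cfA_congr`, `cfA_smul` with the function `q⁻¹`).  For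
`w ∉ C`, `db k χ w = 0`.  So the integrand is `∑_k db k χ w * cfA σ k w` for all `w ≠ z`.
Let `χ₀ = 0` (out), or `χ₀ w = ct (nn (w - z)/δ)` (in) with `δ > 0` so small that `ψ = 0` on a neighbourhood of `{nn (w - z) ≤ 2 δ}`; then `σ = bm z` near the support of `χ₀` (off `z`).
`f_k = (χ - χ₀) cfA σ k` vanishes near `z`, is `C¹` on the whole space, with compact support: `int_db` and `db_mul`:
`0 = ∑_k ∫ db k f_k = ∫ ∑_k (db k χ - db k χ₀) cfA σ k + ∫ (χ - χ₀) ∑_k db k (cfA σ k)`, the last integral is zero.  Hence the integral equals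
`∫ ∑_k db k χ₀ cfA (bm z) k` (integrability: all functions are continuous with compact support; split after the integral of the whole sum).
(in) the same argument for `σ = bm z` and `χ = ct (nn (w - z))`, `χ₀ = ct (nn (w - z)/δ)` shows that the last integral does not depend on `δ`: replace `δ` by `1`.
(Suggestion: first prove the statement `∫ ∑_k db k χ w * cfA σ k w = 0` for every smooth compactly supported `χ` vanishing near `z` and every `σ` which is `C²` with
pairing `1` off `z`; all three applications are special cases, with `χ`, `χ - χ₀`.)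
-/

namespace Pool.Agent.Work.MP_49847a_an

open MvPolynomial Filter Topology MeasureTheory

variable {n : ℕ} {z : Fin n → ℂ} {U C : Set (Fin n → ℂ)} {χ : (Fin n → ℂ) → ℂ} {g : (Fin n → ℂ) → Fin n → ℂ}

/-- `db k φ` has compact support if `φ` has. -/
private theorem cft_cs {φ : (Fin n → ℂ) → ℂ} (hc : HasCompactSupport φ) (k : Fin n) :
    HasCompactSupport (db k φ) := by
  refine hc.mono' ?_
  intro w hw
  by_contra h
  rw [notMem_tsupport_iff_eventuallyEq] at h
  have h1 : db k φ w = 0 := by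
    have h2 : φ =ᶠ[𝓝 w] fun _ => 0 := h
    rw [db_congr h2, db_const]
  exact hw h1

private theorem cft_cd {σ : (Fin n → ℂ) → Fin n → ℂ}
    (hσ : ∀ w, w ≠ z → ∀ j, ContDiffAt ℝ 2 (fun x => σ x j) w) {φ : (Fin n → ℂ) → ℂ}
    (hφ : ContDiff ℝ 1 φ) (h0 : φ =ᶠ[𝓝 z] fun _ => 0) (k : Fin n) :
    ContDiff ℝ 1 (fun w => φ w * cfA σ k w) := by
  rw [contDiff_iff_contDiffAt]
  intro w
  by_cases hw : w = z
  · subst hw
    have h1 : (fun w => φ w * cfA σ k w) =ᶠ[𝓝 w] fun _ => (0 : ℂ) := by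
      filter_upwards [h0] with x hx
      rw [hx, zero_mul]
    exact contDiffAt_const.congr_of_eventuallyEq h1
  · exact hφ.contDiffAt.mul (cfA_contDiffAt (hσ w hw) k)

/-- the integral of the whole divergence -/
private theorem cft_zero {σ : (Fin n → ℂ) → Fin n → ℂ}
    (hσ : ∀ w, w ≠ z → ∀ j, ContDiffAt ℝ 2 (fun x => σ x j) w)
    (hp : ∀ w, w ≠ z → ∑ j, σ w j * (z j - w j) = 1) {φ : (Fin n → ℂ) → ℂ}
    (hφ : ContDiff ℝ 1 φ) (hc : HasCompactSupport φ) (h0 : φ =ᶠ[𝓝 z] fun _ => 0) :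
    ∫ w, ∑ k, db k φ w * cfA σ k w = 0 := by
  have hcd := fun k => cft_cd hσ hφ h0 k
  have hcs : ∀ k, HasCompactSupport (fun w => φ w * cfA σ k w) := fun k => hc.mul_right
  have e : (fun w => ∑ k, db k φ w * cfA σ k w) =
      fun w => ∑ k, db k (fun x => φ x * cfA σ k x) w := by
    funext w
    by_cases hw : w = z
    · subst hw
      refine Finset.sum_congr rfl fun k _ => ?_
      have h1 : (fun w => φ w * cfA σ k w) =ᶠ[𝓝 w] fun _ => (0 : ℂ) := by
        filter_upwards [h0] with x hx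
        rw [hx, zero_mul]
      rw [db_congr h0, db_const, zero_mul, db_congr h1, db_const]
    · have h1 : ∀ k, db k (fun x => φ x * cfA σ k x) w =
          φ w * db k (cfA σ k) w + db k φ w * cfA σ k w := fun k =>
        db_mul (hφ.differentiable one_ne_zero w)
          ((cfA_contDiffAt (hσ w hw) k).differentiableAt one_ne_zero) k
      have h2 : ∑ k, db k (cfA σ k) w = 0 := by
        refine cf_div_zero (hσ w hw) hw ?_
        filter_upwards [isOpen_ne.mem_nhds hw] with x hx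
        exact hp x hx
      rw [Finset.sum_congr rfl fun k _ => h1 k, Finset.sum_add_distrib, ← Finset.mul_sum, h2,
        mul_zero, zero_add]
  have hi : ∀ k, Integrable (fun w => db k (fun x => φ x * cfA σ k x) w) := fun k => by
    have h1 : ContDiff ℝ ((0 : ℕ) + 1) (fun w => φ w * cfA σ k w) := by
      simpa using hcd k
    exact (db_contDiff h1 k).continuous.integrable_of_hasCompactSupport (cft_cs (hcs k) k)
  rw [e, integral_finsetSum _ fun k _ => hi k]
  exact Finset.sum_eq_zero fun k _ => int_db (hcd k) (hcs k) k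

private theorem cft_int {σ : (Fin n → ℂ) → Fin n → ℂ}
    (hσ : ∀ w, w ≠ z → ∀ j, ContDiffAt ℝ 2 (fun x => σ x j) w) {φ : (Fin n → ℂ) → ℂ}
    (hφ : ContDiff ℝ 2 φ) (hc : HasCompactSupport φ) (h1 : φ =ᶠ[𝓝 z] fun _ => 1) :
    Integrable (fun w => ∑ k, db k φ w * cfA σ k w) := by
  refine integrable_finsetSum _ fun k _ => ?_
  have h2 : db k φ =ᶠ[𝓝 z] fun _ => 0 := by
    filter_upwards [h1.eventually_nhds] with x hx
    have h3 : φ =ᶠ[𝓝 x] fun _ => 1 := hx
    rw [db_congr h3, db_const]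
  have h4 : ContDiff ℝ ((1 : ℕ) + 1) φ := by
    have e : (((1 : ℕ) : WithTop ℕ∞) + 1) = 2 := by norm_num
    rw [e]
    exact hφ
  have h5 : ContDiff ℝ 1 (db k φ) := by
    simpa using db_contDiff h4 k
  exact (cft_cd hσ h5 h2 k).continuous.integrable_of_hasCompactSupport (cft_cs hc k).mul_right

private theorem cft_cmp {σ : (Fin n → ℂ) → Fin n → ℂ}
    (hσ : ∀ w, w ≠ z → ∀ j, ContDiffAt ℝ 2 (fun x => σ x j) w)
    (hp : ∀ w, w ≠ z → ∑ j, σ w j * (z j - w j) = 1) {φ ψ : (Fin n → ℂ) → ℂ}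
    (hφ : ContDiff ℝ 2 φ) (hφc : HasCompactSupport φ) (hφ1 : φ =ᶠ[𝓝 z] fun _ => 1)
    (hψ : ContDiff ℝ 2 ψ) (hψc : HasCompactSupport ψ) (hψ1 : ψ =ᶠ[𝓝 z] fun _ => 1) :
    ∫ w, ∑ k, db k φ w * cfA σ k w = ∫ w, ∑ k, db k ψ w * cfA σ k w := by
  have h12 : (1 : WithTop ℕ∞) ≤ 2 := one_le_two
  have h0 : (fun w => φ w - ψ w) =ᶠ[𝓝 z] fun _ => 0 := by
    filter_upwards [hφ1, hψ1] with x h1 h2
    rw [h1, h2, sub_self]
  have hd := cft_zero hσ hp (φ := fun w => φ w - ψ w) ((hφ.sub hψ).of_le h12)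
    (hφc.sub hψc) h0
  have e : (fun w => ∑ k, db k (fun x => φ x - ψ x) w * cfA σ k w) =
      fun w => (∑ k, db k φ w * cfA σ k w) - ∑ k, db k ψ w * cfA σ k w := by
    funext w
    rw [← Finset.sum_sub_distrib]
    refine Finset.sum_congr rfl fun k _ => ?_
    rw [db_sub (hφ.differentiable two_ne_zero w) (hψ.differentiable two_ne_zero w), sub_mul]
  rw [e, integral_sub (cft_int hσ hφ hφc hφ1) (cft_int hσ hψ hψc hψ1)] at hd
  exact sub_eq_zero.1 hd

/-- the section which is `g/q` near `C` and `bm z` off `U` -/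
private theorem cft_sec (hU : IsOpen U) (hC : IsCompact C) (hCU : C ⊆ U) (hzU : z ∉ U)
    (hg : ∀ j, ∀ m : ℕ, ContDiff ℝ m (fun w => g w j))
    (hq : ∀ w ∈ U, ∑ j, g w j * (z j - w j) ≠ 0) :
    ∃ σ : (Fin n → ℂ) → Fin n → ℂ, (∀ w, w ≠ z → ∀ j, ContDiffAt ℝ 2 (fun x => σ x j) w) ∧
      (∀ w, w ≠ z → ∑ j, σ w j * (z j - w j) = 1) ∧
      (∀ w ∈ C, ∀ k, cfA σ k w = cfA g k w / (∑ j, g w j * (z j - w j)) ^ n) ∧
      ∀ᶠ w in 𝓝 z, σ w = bm z w := by
  obtain ⟨T, hT, hCT, hTU⟩ := exists_compact_between hC hU hCU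
  obtain ⟨f, hf1, hf0, -⟩ := exists_contMDiffMap_one_nhds_of_subset_interior
    (modelWithCornersSelf ℝ (Fin n → ℂ)) (n := (2 : ℕ)) hC.isClosed hCT
  have hf : ContDiff ℝ 2 (fun w => ((f w : ℝ) : ℂ)) := by
    have h1 : ContDiff ℝ 2 (fun w => f w) := by
      simpa using f.contMDiff.contDiff
    exact Complex.ofRealCLM.contDiff.comp h1
  set q : (Fin n → ℂ) → ℂ := fun w => ∑ j, g w j * (z j - w j) with hqd
  have hg2 : ∀ j, ContDiff ℝ 2 (fun w => g w j) := fun j => by
    simpa using hg j 2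
  have hco : ∀ j, ContDiff ℝ 2 (fun w : Fin n → ℂ => z j - w j) := fun j =>
    contDiff_const.sub (contDiff_apply ℝ ℂ j)
  have hqc : ContDiff ℝ 2 q := ContDiff.sum fun j _ => (hg2 j).mul (hco j)
  have hoff : ∀ w, w ∉ T → ∀ᶠ x in 𝓝 w, f x = 0 := by
    intro w hw
    filter_upwards [hT.isClosed.isOpen_compl.mem_nhds hw] with x hx
    exact hf0 x hx
  set σ : (Fin n → ℂ) → Fin n → ℂ := fun w j =>
    ((f w : ℝ) : ℂ) * ((q w)⁻¹ * g w j) + (1 - ((f w : ℝ) : ℂ)) * bm z w j with hσ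
  have hbm : ∀ w, w ∉ T → ∀ᶠ x in 𝓝 w, σ x = bm z x := by
    intro w hw
    filter_upwards [hoff w hw] with x hx
    funext j
    rw [hσ]
    simp only [hx, Complex.ofReal_zero, zero_mul, zero_add, sub_zero, one_mul]
  refine ⟨σ, ?_, ?_, ?_, hbm z fun h => hzU (hTU h)⟩
  · intro w hw j
    have hb : ContDiffAt ℝ 2 (fun x => bm z x j) w := by
      simpa using bm_contDiffAt (m := 2) hw j
    by_cases hwU : w ∈ U
    · have h1 : ContDiffAt ℝ 2 (fun x => (q x)⁻¹) w := hqc.contDiffAt.inv (hq w hwU)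
      exact (hf.contDiffAt.mul (h1.mul (hg2 j).contDiffAt)).add
        ((contDiffAt_const.sub hf.contDiffAt).mul hb)
    · refine hb.congr_of_eventuallyEq ?_
      filter_upwards [hbm w fun h => hwU (hTU h)] with x hx
      rw [hx]
  · intro w hw
    have h1 : ∑ j, σ w j * (z j - w j) =
        ((f w : ℝ) : ℂ) * ((q w)⁻¹ * q w) + (1 - ((f w : ℝ) : ℂ)) := by
      have h2 : ∑ j, σ w j * (z j - w j) = ((f w : ℝ) : ℂ) * ((q w)⁻¹ * q w) +
          (1 - ((f w : ℝ) : ℂ)) * ∑ j, bm z w j * (z j - w j) := by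
        rw [hσ, hqd, Finset.mul_sum, Finset.mul_sum, Finset.mul_sum, ← Finset.sum_add_distrib]
        refine Finset.sum_congr rfl fun j _ => ?_
        ring
      rw [h2, bm_pair hw, mul_one]
    rw [h1]
    by_cases hwU : w ∈ U
    · rw [inv_mul_cancel₀ (hq w hwU)]
      ring
    · rw [hf0 w fun h => hwU (hTU h)]
      simp
  · intro w hw k
    have h1 : ∀ᶠ x in 𝓝 w, f x = 1 := by
      rw [eventually_nhdsSet_iff_forall] at hf1
      exact hf1 w hw
    have h2 : σ =ᶠ[𝓝 w] fun x j => (q x)⁻¹ * g x j := by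
      filter_upwards [h1] with x hx
      funext j
      rw [hσ]
      simp only [hx, Complex.ofReal_one, one_mul, sub_self, zero_mul, add_zero]
    have hqw : q w ≠ 0 := hq w (hCU hw)
    have hqi : DifferentiableAt ℝ (fun x => (q x)⁻¹) w := (hqc.differentiable two_ne_zero w).inv hqw
    rw [cfA_congr h2, cfA_smul hqi fun j => (hg2 j).differentiable two_ne_zero w]
    rw [inv_pow, div_eq_mul_inv, mul_comm]

theorem cf_out (hU : IsOpen U) (hC : IsCompact C) (hCU : C ⊆ U) (hzU : z ∉ U)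
    (hχ : ∀ m : ℕ, ContDiff ℝ m χ) (hχc : HasCompactSupport χ)
    (hχC : ∀ w, w ∉ C → ∀ k, db k χ w = 0) (hg : ∀ j, ∀ m : ℕ, ContDiff ℝ m (fun w => g w j))
    (hq : ∀ w ∈ U, ∑ j, g w j * (z j - w j) ≠ 0) (h0 : χ =ᶠ[𝓝 z] fun _ => 0) :
    ∫ w, ∑ k, db k χ w * (cfA g k w / (∑ j, g w j * (z j - w j)) ^ n) = 0 := by
  obtain ⟨σ, hσ, hp, hσC, -⟩ := cft_sec hU hC hCU hzU hg hq
  have e : (fun w => ∑ k, db k χ w * (cfA g k w / (∑ j, g w j * (z j - w j)) ^ n)) =
      fun w => ∑ k, db k χ w * cfA σ k w := by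
    funext w
    refine Finset.sum_congr rfl fun k _ => ?_
    by_cases hw : w ∈ C
    · rw [hσC w hw k]
    · rw [hχC w hw k, zero_mul, zero_mul]
  rw [e]
  have h1 : ContDiff ℝ 1 χ := by simpa using hχ 1
  exact cft_zero hσ hp h1 hχc h0

/-- the standard cut-off at `z` -/
private theorem cft_ct (z : Fin n → ℂ) :
    ContDiff ℝ 2 (fun w : Fin n → ℂ => ((ct (nn (w - z) / 1) : ℝ) : ℂ)) ∧
    HasCompactSupport (fun w : Fin n → ℂ => ((ct (nn (w - z) / 1) : ℝ) : ℂ)) ∧
    (fun w : Fin n → ℂ => ((ct (nn (w - z) / 1) : ℝ) : ℂ)) =ᶠ[𝓝 z] fun _ => 1 := by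
  have hn : ContDiff ℝ 2 (fun w : Fin n → ℂ => nn (w - z)) := by
    simpa using nn_contDiff z (m := 2)
  refine ⟨?_, ?_, ?_⟩
  · have h1 : ContDiff ℝ 2 ct := by simpa using ct_contDiff (m := 2)
    exact Complex.ofRealCLM.contDiff.comp (h1.comp (hn.div_const 1))
  · refine HasCompactSupport.intro (isCompact_closedBall z (2 : ℝ)) ?_
    intro w hw
    have h1 : 2 < dist w z := by
      rw [Metric.mem_closedBall, not_le] at hw
      exact hw
    have h2 : 2 ≤ nn (w - z) := by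
      by_contra hlt
      rw [not_le] at hlt
      have h3 : dist w z ≤ 2 := by
        rw [dist_pi_le_iff (by norm_num)]
        intro i
        have h4 : ‖(w - z) i‖ ^ 2 ≤ nn (w - z) := by
          unfold nn
          exact Finset.single_le_sum (f := fun i => ‖(w - z) i‖ ^ 2)
            (fun i _ => by positivity) (Finset.mem_univ i)
        rw [dist_eq_norm]
        have h5 : (w - z) i = w i - z i := rfl
        rw [h5] at h4
        nlinarith [norm_nonneg (w i - z i)]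
      linarith
    have h6 : ct (nn (w - z) / 1) = 0 := ct_zero (by rw [div_one]; exact h2)
    rw [h6, Complex.ofReal_zero]
  · have h0 : nn (z - z) = 0 := by
      unfold nn
      simp
    have h1 : ∀ᶠ w in 𝓝 z, nn (w - z) < 1 := by
      have h2 : Tendsto (fun w : Fin n → ℂ => nn (w - z)) (𝓝 z) (𝓝 0) := by
        have h3 := hn.continuous.tendsto z
        rwa [h0] at h3
      exact h2.eventually (gt_mem_nhds one_pos)
    filter_upwards [h1] with w hw
    have h6 : ct (nn (w - z) / 1) = 1 := ct_one (by rw [div_one]; exact hw.le)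
    rw [h6, Complex.ofReal_one]

theorem cf_in (hU : IsOpen U) (hC : IsCompact C) (hCU : C ⊆ U) (hzU : z ∉ U)
    (hχ : ∀ m : ℕ, ContDiff ℝ m χ) (hχc : HasCompactSupport χ)
    (hχC : ∀ w, w ∉ C → ∀ k, db k χ w = 0) (hg : ∀ j, ∀ m : ℕ, ContDiff ℝ m (fun w => g w j))
    (hq : ∀ w ∈ U, ∑ j, g w j * (z j - w j) ≠ 0) (h1 : χ =ᶠ[𝓝 z] fun _ => 1) :
    ∫ w, ∑ k, db k χ w * (cfA g k w / (∑ j, g w j * (z j - w j)) ^ n) =
      ∫ w, ∑ k, db k (fun w => ((ct (nn (w - z) / 1) : ℝ) : ℂ)) w * cfA (bm z) k w := by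
  obtain ⟨σ, hσ, hp, hσC, hσz⟩ := cft_sec hU hC hCU hzU hg hq
  have e : (fun w => ∑ k, db k χ w * (cfA g k w / (∑ j, g w j * (z j - w j)) ^ n)) =
      fun w => ∑ k, db k χ w * cfA σ k w := by
    funext w
    refine Finset.sum_congr rfl fun k _ => ?_
    by_cases hw : w ∈ C
    · rw [hσC w hw k]
    · rw [hχC w hw k, zero_mul, zero_mul]
  rw [e]
  have hχ2 : ContDiff ℝ 2 χ := by simpa using hχ 2
  -- a bump function at `z` with small support
  obtain ⟨r, hr, hrs⟩ := Metric.eventually_nhds_iff_ball.1 hσz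
  set B : ContDiffBump z := ⟨r / 4, r / 2, by positivity, by linarith⟩ with hB
  set φ : (Fin n → ℂ) → ℂ := fun w => ((B w : ℝ) : ℂ) with hφ
  have hφ2 : ContDiff ℝ 2 φ := by
    have h2 : ContDiff ℝ 2 (fun w => B w) := B.contDiff
    exact Complex.ofRealCLM.contDiff.comp h2
  have hφc : HasCompactSupport φ := by
    refine HasCompactSupport.intro (isCompact_closedBall z (r / 2)) ?_
    intro w hw
    have h3 : B w = 0 := by
      refine B.zero_of_le_dist ?_
      rw [Metric.mem_closedBall, not_le] at hw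
      exact hw.le
    rw [hφ]
    simp only [h3, Complex.ofReal_zero]
  have hφ1 : φ =ᶠ[𝓝 z] fun _ => 1 := by
    filter_upwards [B.eventuallyEq_one] with w hw
    rw [hφ]
    simp only [hw, Pi.one_apply, Complex.ofReal_one]
  rw [cft_cmp hσ hp hχ2 hχc h1 hφ2 hφc hφ1]
  have e2 : (fun w => ∑ k, db k φ w * cfA σ k w) = fun w => ∑ k, db k φ w * cfA (bm z) k w := by
    funext w
    refine Finset.sum_congr rfl fun k _ => ?_
    by_cases hw : dist w z < r
    · have h4 : σ =ᶠ[𝓝 w] bm z := by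
        filter_upwards [Metric.isOpen_ball.mem_nhds (Metric.mem_ball.2 hw)] with x hx
        exact hrs x hx
      rw [cfA_congr h4]
    · have h5 : φ =ᶠ[𝓝 w] fun _ => 0 := by
        have h6 : ∀ᶠ x in 𝓝 w, r / 2 < dist x z := by
          have h7 : r / 2 < dist w z := by
            rw [not_lt] at hw
            linarith
          exact (continuous_id.dist continuous_const).tendsto w |>.eventually (lt_mem_nhds h7)
        filter_upwards [h6] with x hx
        rw [hφ]
        simp only [B.zero_of_le_dist hx.le, Complex.ofReal_zero]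
      rw [db_congr h5, db_const, zero_mul, zero_mul]
  rw [e2]
  obtain ⟨hc1, hc2, hc3⟩ := cft_ct z
  have hb : ∀ w, w ≠ z → ∀ j, ContDiffAt ℝ 2 (fun x => bm z x j) w := fun w hw j => by
    simpa using bm_contDiffAt (m := 2) hw j
  exact cft_cmp hb (fun w hw => bm_pair hw) hφ2 hφc hφ1 hc1 hc2 hc3

end Pool.Agent.Work.MP_49847a_an
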