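import Pool.Agent.Work.MP_49847a_an.Cf.CfDefs

/-!
# Module DbA: rules for `db`

Proof.  Everything follows from the rules for `fderiv ℝ` (`fderiv_add`, `fderiv_mul`, `Filter.EventuallyEq.fderiv_eq`,
`fderiv_sum`/induction, ...).  (db_inv) `HasFDerivAt` of the inverse, or `db_mul` applied to `f * f⁻¹ = 1` near `w` (`db_congr`; `f ≠ 0` near `w` by
continuity).  (db_comp) chain rule: `fderiv ℝ (γ ∘ ρ) w v = deriv γ (ρ w) * fderiv ℝ ρ w v`, and `fderiv` of `x ↦ ((ρ x : ℝ) : ℂ)` applied to `v` is the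
coercion of `fderiv ℝ ρ w v` (`Complex.ofRealCLM`).
-/

namespace Pool.Agent.Work.MP_49847a_an

open MvPolynomial Filter Topology MeasureTheory

variable {n : ℕ} {f g : (Fin n → ℂ) → ℂ} {w : Fin n → ℂ}

theorem db_congr (h : f =ᶠ[𝓝 w] g) (k : Fin n) : db k f w = db k g w := by
  unfold db
  rw [h.fderiv_eq]

theorem db_const (c : ℂ) (k : Fin n) (w : Fin n → ℂ) : db k (fun _ => c) w = 0 := by
  unfold db
  have h : fderiv ℝ (fun _ : Fin n → ℂ => c) w = 0 := (hasFDerivAt_const c w).fderiv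
  rw [h]
  simp

theorem db_add (hf : DifferentiableAt ℝ f w) (hg : DifferentiableAt ℝ g w) (k : Fin n) :
    db k (fun x => f x + g x) w = db k f w + db k g w := by
  have h : fderiv ℝ (fun x => f x + g x) w = fderiv ℝ f w + fderiv ℝ g w :=
    (hf.hasFDerivAt.add hg.hasFDerivAt).fderiv
  unfold db
  rw [h]
  simp only [ContinuousLinearMap.add_apply]
  ring

theorem db_sub (hf : DifferentiableAt ℝ f w) (hg : DifferentiableAt ℝ g w) (k : Fin n) :
    db k (fun x => f x - g x) w = db k f w - db k g w := by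
  have h : fderiv ℝ (fun x => f x - g x) w = fderiv ℝ f w - fderiv ℝ g w :=
    (hf.hasFDerivAt.sub hg.hasFDerivAt).fderiv
  unfold db
  rw [h]
  simp only [ContinuousLinearMap.sub_apply]
  ring

theorem db_mul (hf : DifferentiableAt ℝ f w) (hg : DifferentiableAt ℝ g w) (k : Fin n) :
    db k (fun x => f x * g x) w = f w * db k g w + db k f w * g w := by
  have h : fderiv ℝ (fun x => f x * g x) w = f w • fderiv ℝ g w + g w • fderiv ℝ f w :=
    (hf.hasFDerivAt.mul hg.hasFDerivAt).fderiv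
  unfold db
  rw [h]
  simp only [ContinuousLinearMap.add_apply, ContinuousLinearMap.smul_apply, smul_eq_mul]
  ring

theorem db_sum {ι : Type*} (s : Finset ι) {F : ι → (Fin n → ℂ) → ℂ}
    (h : ∀ i ∈ s, DifferentiableAt ℝ (F i) w) (k : Fin n) :
    db k (fun x => ∑ i ∈ s, F i x) w = ∑ i ∈ s, db k (F i) w := by
  classical
  induction s using Finset.induction_on with
  | empty =>
    simp only [Finset.sum_empty]
    exact db_const 0 k w
  | insert a s ha ih =>
    rw [Finset.sum_insert ha, ← ih (fun i hi => h i (Finset.mem_insert_of_mem hi))]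
    have h1 : (fun x => ∑ i ∈ insert a s, F i x) = fun x => F a x + ∑ i ∈ s, F i x := by
      funext x
      rw [Finset.sum_insert ha]
    rw [h1]
    have h2 : DifferentiableAt ℝ (fun x => ∑ i ∈ s, F i x) w :=
      DifferentiableAt.fun_sum fun i hi => h i (Finset.mem_insert_of_mem hi)
    exact db_add (h a (Finset.mem_insert_self a s)) h2 k

theorem db_inv (hf : DifferentiableAt ℝ f w) (h0 : f w ≠ 0) (k : Fin n) :
    db k (fun x => (f x)⁻¹) w = - db k f w / f w ^ 2 := by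
  have hi : DifferentiableAt ℝ (fun x => (f x)⁻¹) w := hf.inv h0
  have h1 : (fun x => f x * (f x)⁻¹) =ᶠ[𝓝 w] fun _ => (1 : ℂ) := by
    filter_upwards [hf.continuousAt.eventually_ne h0] with x hx
    exact mul_inv_cancel₀ hx
  have h2 := db_congr h1 k
  rw [db_const, db_mul hf hi] at h2
  have h3 : f w * db k (fun x => (f x)⁻¹) w = - (db k f w * (f w)⁻¹) := by
    linear_combination h2
  have h4 : db k (fun x => (f x)⁻¹) w = (f w)⁻¹ * (- (db k f w * (f w)⁻¹)) := by
    rw [← h3, ← mul_assoc, inv_mul_cancel₀ h0, one_mul]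
  rw [h4]
  field_simp

theorem db_comp {γ : ℝ → ℝ} {ρ : (Fin n → ℂ) → ℝ} (hγ : DifferentiableAt ℝ γ (ρ w))
    (hρ : DifferentiableAt ℝ ρ w) (k : Fin n) :
    db k (fun x => ((γ (ρ x) : ℝ) : ℂ)) w =
      ((deriv γ (ρ w) : ℝ) : ℂ) * db k (fun x => ((ρ x : ℝ) : ℂ)) w := by
  have h1 : HasFDerivAt (fun x => γ (ρ x)) (deriv γ (ρ w) • fderiv ℝ ρ w) w :=
    hγ.hasDerivAt.comp_hasFDerivAt w hρ.hasFDerivAt
  have h2 : fderiv ℝ (fun x => ((γ (ρ x) : ℝ) : ℂ)) w =
      Complex.ofRealCLM.comp (deriv γ (ρ w) • fderiv ℝ ρ w) :=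
    (Complex.ofRealCLM.hasFDerivAt.comp w h1).fderiv
  have h3 : fderiv ℝ (fun x => ((ρ x : ℝ) : ℂ)) w = Complex.ofRealCLM.comp (fderiv ℝ ρ w) :=
    (Complex.ofRealCLM.hasFDerivAt.comp w hρ.hasFDerivAt).fderiv
  unfold db
  rw [h2, h3]
  simp only [ContinuousLinearMap.comp_apply, ContinuousLinearMap.smul_apply, smul_eq_mul,
    Complex.ofRealCLM_apply, Complex.ofReal_mul]
  ring

end Pool.Agent.Work.MP_49847a_an
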