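import Pool.Agent.Work.MP_49847a_an.Cf.Ct
import Pool.Agent.Work.MP_49847a_an.Cf.DbA
import Pool.Agent.Work.MP_49847a_an.Cp.CpDefs

/-!
# Module Cut: the cut-off adapted to `r`

Proof.  `r2 P Q w > 0` for `nn w ≥ R` (`Pos2`).  The set `{R ≤ nn w ≤ R + 2}` is compact, so `r2 ≥ m` there for some `m > 0` (if it is empty take `m = 1`).
For `0 < c < m` let `χ w = ct (3 r2 w / c)` if `nn w < R + 1` and `χ w = 0` otherwise.  On `{R ≤ nn w ≤ R + 2}`, `3 r2 w / c ≥ 3`, so `ct (3 r2 w / c) = 0`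
there (`ct_zero`); so `χ = 0` on `{R ≤ nn w}`, near every point with `nn w ≥ R` (there `r2 > 2c/3` in a neighbourhood or `nn > R + 1`) `χ` vanishes in a neighbourhood, and near every
point with `nn w < R + 1` it is the smooth function `ct (3 r2 / c)`.  Smoothness at every point (`contDiff_iff_contDiffAt`); `r2` is smooth (polynomials;
`‖a‖² = re² + im²`).  Compact support: `χ = 0` for `nn w ≥ R`.
If `r2 w ≤ 0`: `nn w < R` and `3 r2/c < 1` near `w`, `ct_one`.  If `c < r2 w`: `ct_zero` near `w`.  Otherwise, if `w` is not in the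
compact set of the last statement: `nn w > R`, or `r2 w < c/3` or `r2 w > 2c/3`: `χ` is constant near `w` (`db_congr`, `db_const`).
-/

namespace Pool.Agent.Work.MP_49847a_an

open MvPolynomial Filter Topology MeasureTheory

variable {n k l : ℕ} {P : Fin k → MvPolynomial (Fin n) ℂ} {Q : Fin l → MvPolynomial (Fin n) ℂ}

private theorem cut_eval (p : MvPolynomial (Fin n) ℂ) (m : ℕ) :
    ContDiff ℝ m (fun x : Fin n → ℂ => eval x p) := by
  induction p using MvPolynomial.induction_on with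
  | C a => simpa using contDiff_const
  | add p q hp hq => simpa using hp.add hq
  | mul_X p i hp =>
    have h1 : ContDiff ℝ m (fun x : Fin n → ℂ => x i) := contDiff_apply ℝ ℂ i
    simpa using hp.mul h1

private theorem cut_nrm {k : ℕ} (P : Fin k → MvPolynomial (Fin n) ℂ) (m : ℕ) :
    ContDiff ℝ m (fun x : Fin n → ℂ => nrm P x) := by
  unfold nrm
  exact ContDiff.sum fun j _ => (cut_eval (P j) m).norm_sq ℝ

private theorem cut_r2 (P : Fin k → MvPolynomial (Fin n) ℂ) (Q : Fin l → MvPolynomial (Fin n) ℂ)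
    (m : ℕ) : ContDiff ℝ m (r2 P Q) := (cut_nrm P m).sub (cut_nrm Q m)

private theorem cut_g (P : Fin k → MvPolynomial (Fin n) ℂ) (Q : Fin l → MvPolynomial (Fin n) ℂ)
    (c : ℝ) (m : ℕ) :
    ContDiff ℝ m (fun w : Fin n → ℂ => ((ct (3 * r2 P Q w / c) : ℝ) : ℂ)) := by
  have h1 : ContDiff ℝ m (fun w : Fin n → ℂ => 3 * r2 P Q w / c) :=
    (contDiff_const.mul (cut_r2 P Q m)).div_const c
  have h2 : ContDiff ℝ m ct := by
    have := ct_contDiff (m := (m : ℕ∞))
    exact_mod_cast this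
  exact Complex.ofRealCLM.contDiff.comp (h2.comp h1)

theorem cf_cut (hP : Pos2 P Q) : ∃ R m : ℝ, 0 < m ∧ (∀ w, r2 P Q w ≤ 0 → nn w < R) ∧
    ∀ c, 0 < c → c < m → ∃ χ : (Fin n → ℂ) → ℂ, (∀ m : ℕ, ContDiff ℝ m χ) ∧
      HasCompactSupport χ ∧ (∀ w, r2 P Q w ≤ 0 → χ =ᶠ[𝓝 w] fun _ => 1) ∧
      (∀ w, c < r2 P Q w → χ =ᶠ[𝓝 w] fun _ => 0) ∧
      ∀ w, ¬ (nn w ≤ R ∧ c / 3 ≤ r2 P Q w ∧ r2 P Q w ≤ 2 * c / 3) → ∀ k, db k χ w = 0 := by
  obtain ⟨R, hR⟩ := hP
  have hr : Continuous (r2 P Q) := r2_continuous P Q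
  have hn : Continuous (nn : (Fin n → ℂ) → ℝ) := nn_continuous
  have hK : IsCompact {w : Fin n → ℂ | R ≤ nn w ∧ nn w ≤ R + 2} := by
    refine (nn_cpt (n := n) (R + 2)).of_isClosed_subset ?_ fun w hw => hw.2
    exact (isClosed_le continuous_const hn).inter (isClosed_le hn continuous_const)
  obtain ⟨m, hm, hmK⟩ : ∃ m : ℝ, 0 < m ∧ ∀ w : Fin n → ℂ, R ≤ nn w → nn w ≤ R + 2 →
      m ≤ r2 P Q w := by
    rcases Set.eq_empty_or_nonempty {w : Fin n → ℂ | R ≤ nn w ∧ nn w ≤ R + 2} with h | h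
    · refine ⟨1, one_pos, fun w h1 h2 => ?_⟩
      have : w ∈ {w : Fin n → ℂ | R ≤ nn w ∧ nn w ≤ R + 2} := ⟨h1, h2⟩
      rw [h] at this
      exact absurd this (Set.notMem_empty w)
    · obtain ⟨w₀, hw₀, hmin⟩ := hK.exists_isMinOn h hr.continuousOn
      exact ⟨r2 P Q w₀, hR w₀ hw₀.1, fun w h1 h2 => hmin ⟨h1, h2⟩⟩
  have hle : ∀ w, r2 P Q w ≤ 0 → nn w < R := by
    intro w hw
    by_contra h
    exact absurd (hR w (not_lt.1 h)) (not_lt.2 hw)
  refine ⟨R, m, hm, hle, fun c hc hcm => ?_⟩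
  set g : (Fin n → ℂ) → ℂ := fun w => ((ct (3 * r2 P Q w / c) : ℝ) : ℂ) with hg
  set χ : (Fin n → ℂ) → ℂ := fun w => if nn w < R + 1 then g w else 0 with hχ
  have hg0 : ∀ w, 2 * c / 3 < r2 P Q w → g w = 0 := by
    intro w hw
    have h1 : 2 ≤ 3 * r2 P Q w / c := by
      rw [le_div_iff₀ hc]
      linarith
    simp only [hg]
    rw [ct_zero h1, Complex.ofReal_zero]
  have hg1 : ∀ w, r2 P Q w < c / 3 → g w = 1 := by
    intro w hw
    have h1 : 3 * r2 P Q w / c ≤ 1 := by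
      rw [div_le_iff₀ hc]
      linarith
    simp only [hg]
    rw [ct_one h1, Complex.ofReal_one]
  have hA : ∀ w : Fin n → ℂ, nn w < R + 1 → χ =ᶠ[𝓝 w] g := by
    intro w hw
    filter_upwards [(isOpen_lt hn continuous_const).mem_nhds hw] with x hx
    simp only [hχ]
    exact if_pos hx
  have hBpt : ∀ w : Fin n → ℂ, R < nn w → χ w = 0 := by
    intro w hw
    simp only [hχ]
    split_ifs with h
    · refine hg0 w ?_
      have := hmK w hw.le (by linarith)
      linarith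
    · rfl
  have hB : ∀ w : Fin n → ℂ, R < nn w → χ =ᶠ[𝓝 w] fun _ => 0 := by
    intro w hw
    filter_upwards [(isOpen_lt continuous_const hn).mem_nhds hw] with x hx
    exact hBpt x hx
  have h0 : ∀ w, 2 * c / 3 < r2 P Q w → χ =ᶠ[𝓝 w] fun _ => 0 := by
    intro w hw
    filter_upwards [(isOpen_lt continuous_const hr).mem_nhds hw] with x hx
    simp only [hχ]
    split_ifs
    · exact hg0 x hx
    · rfl
  have h1 : ∀ w : Fin n → ℂ, nn w < R + 1 → r2 P Q w < c / 3 → χ =ᶠ[𝓝 w] fun _ => 1 := by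
    intro w hw hw2
    filter_upwards [(isOpen_lt hr continuous_const).mem_nhds hw2,
      (isOpen_lt hn continuous_const).mem_nhds hw] with x hx hx2
    simp only [hχ]
    rw [if_pos hx2]
    exact hg1 x hx
  refine ⟨χ, ?_, ?_, ?_, ?_, ?_⟩
  · intro m'
    rw [contDiff_iff_contDiffAt]
    intro w
    rcases lt_or_ge (nn w) (R + 1) with h | h
    · exact (cut_g P Q c m').contDiffAt.congr_of_eventuallyEq (hA w h)
    · exact contDiffAt_const.congr_of_eventuallyEq (hB w (by linarith))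
  · refine HasCompactSupport.intro (nn_cpt (n := n) R) fun w hw => ?_
    exact hBpt w (not_le.1 hw)
  · intro w hw
    have h2 := hle w hw
    exact h1 w (by linarith) (lt_of_le_of_lt hw (by positivity))
  · intro w hw
    exact h0 w (by linarith)
  · intro w hw k
    by_cases h2 : nn w ≤ R
    · rcases lt_or_ge (r2 P Q w) (c / 3) with h3 | h3
      · rw [db_congr (h1 w (by linarith) h3), db_const]
      · have h4 : 2 * c / 3 < r2 P Q w := by
          by_contra h5
          exact hw ⟨h2, h3, not_lt.1 h5⟩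
        rw [db_congr (h0 w h4), db_const]
    · rw [db_congr (hB w (not_le.1 h2)), db_const]

end Pool.Agent.Work.MP_49847a_an
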