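import Pool.Agent.Work.MP_49847a_an.Cf.DbB
import Pool.Agent.Work.MP_49847a_an.Sg.SDefs

/-!
# Module Dec: division by `z - w`

Proof.  For a polynomial `p` there are finitely many polynomials `a_i`, `b_ij` with
`p(z) - p(w) = ∑_j (∑_i a_i(z) b_ij(w)) (z_j - w_j)`: induction on `p` (`MvPolynomial.induction_on`): constants: no terms; sums: append the families
(`Fin.append`, or index by a sum type and `Fintype.equivFin`); `p X_l`: `p(z) z_l - p(w) w_l = (p(z) - p(w)) w_l + p(z) (z_l - w_l)`.
Then `R2 P Q z w - r2 P Q w = ∑_i (P_i(z) - P_i(w)) conj(P_i(w)) - ∑_i (Q_i(z) - Q_i(w)) conj(Q_i(w))`: the coefficients `β` are sums of products of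
`b_ij(w)` and `conj(P_i(w))`, smooth (`eval_contDiff`, `conj_eval_contDiff`).  It is convenient to prove closure lemmas for the predicate
`the function (z, w) ↦ F z w has a representation`: sums, products with a smooth function of `w`, products with a polynomial in `z`.
-/

namespace Pool.Agent.Work.MP_49847a_an

open MvPolynomial Filter Topology MeasureTheory

variable {n k l : ℕ} {P : Fin k → MvPolynomial (Fin n) ℂ} {Q : Fin l → MvPolynomial (Fin n) ℂ}

/-- `F` has a representation with coefficients of the required form -/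
private def CfRep {n : ℕ} (F : (Fin n → ℂ) → (Fin n → ℂ) → ℂ) : Prop :=
  ∃ (ι : Type) (_ : Fintype ι) (α : ι → MvPolynomial (Fin n) ℂ)
    (β : ι → Fin n → (Fin n → ℂ) → ℂ), (∀ i j, ∀ m : ℕ, ContDiff ℝ m (β i j)) ∧
      ∀ z w, F z w = ∑ j, (∑ i, eval z (α i) * β i j w) * (z j - w j)

private lemma cfRep_zero : CfRep (fun _ _ : Fin n → ℂ => (0 : ℂ)) := by
  refine ⟨Fin 0, inferInstance, fun i => i.elim0, fun i => i.elim0, fun i => i.elim0, ?_⟩
  intro z w
  simp

private lemma cfRep_add {F G : (Fin n → ℂ) → (Fin n → ℂ) → ℂ} (hF : CfRep F) (hG : CfRep G) :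
    CfRep (fun z w => F z w + G z w) := by
  obtain ⟨ι, _, α, β, hβ, h⟩ := hF
  obtain ⟨ι', _, α', β', hβ', h'⟩ := hG
  refine ⟨ι ⊕ ι', inferInstance, Sum.elim α α', Sum.elim β β', ?_, ?_⟩
  · rintro (i | i) j m
    · exact hβ i j m
    · exact hβ' i j m
  · intro z w
    change F z w + G z w = _
    rw [h, h', ← Finset.sum_add_distrib]
    refine Finset.sum_congr rfl fun j _ => ?_
    rw [Fintype.sum_sum_type]
    simp only [Sum.elim_inl, Sum.elim_inr]
    ring

private lemma cfRep_poly {F : (Fin n → ℂ) → (Fin n → ℂ) → ℂ} (hF : CfRep F)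
    (p : MvPolynomial (Fin n) ℂ) : CfRep (fun z w => eval z p * F z w) := by
  obtain ⟨ι, _, α, β, hβ, h⟩ := hF
  refine ⟨ι, inferInstance, fun i => p * α i, β, hβ, ?_⟩
  intro z w
  change eval z p * F z w = _
  rw [h, Finset.mul_sum]
  refine Finset.sum_congr rfl fun j _ => ?_
  rw [← mul_assoc, Finset.mul_sum]
  congr 1
  refine Finset.sum_congr rfl fun i _ => ?_
  rw [map_mul, mul_assoc]

private lemma cfRep_smooth {F : (Fin n → ℂ) → (Fin n → ℂ) → ℂ} (hF : CfRep F)
    (g : (Fin n → ℂ) → ℂ) (hg : ∀ m : ℕ, ContDiff ℝ m g) : CfRep (fun z w => g w * F z w) := by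
  obtain ⟨ι, _, α, β, hβ, h⟩ := hF
  refine ⟨ι, inferInstance, α, fun i j w => g w * β i j w, ?_, ?_⟩
  · intro i j m
    exact (hg m).mul (hβ i j m)
  · intro z w
    change g w * F z w = _
    rw [h, Finset.mul_sum]
    refine Finset.sum_congr rfl fun j _ => ?_
    rw [← mul_assoc, Finset.mul_sum]
    congr 1
    refine Finset.sum_congr rfl fun i _ => ?_
    ring

private lemma cfRep_neg {F : (Fin n → ℂ) → (Fin n → ℂ) → ℂ} (hF : CfRep F) :
    CfRep (fun z w => -F z w) := by
  have h := cfRep_poly hF (-1)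
  have e : (fun z w => eval z (-1 : MvPolynomial (Fin n) ℂ) * F z w) = fun z w => -F z w := by
    funext z w
    simp
  rwa [e] at h

private lemma cfRep_sum {κ : Type} (s : Finset κ) (F : κ → (Fin n → ℂ) → (Fin n → ℂ) → ℂ)
    (hF : ∀ a, CfRep (F a)) : CfRep (fun z w => ∑ a ∈ s, F a z w) := by
  classical
  induction s using Finset.induction_on with
  | empty => simpa using (cfRep_zero (n := n))
  | insert a s ha ih =>
    have e : (fun z w => ∑ b ∈ insert a s, F b z w) = fun z w => F a z w + ∑ b ∈ s, F b z w := by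
      funext z w
      rw [Finset.sum_insert ha]
    rw [e]
    exact cfRep_add (hF a) ih

private lemma cfRep_X (l : Fin n) : CfRep (fun z w : Fin n → ℂ => z l - w l) := by
  classical
  refine ⟨Fin 1, inferInstance, fun _ => 1, fun _ j _ => if j = l then 1 else 0, ?_, ?_⟩
  · intro i j m
    exact contDiff_const
  · intro z w
    simp

private lemma cfRep_diff (p : MvPolynomial (Fin n) ℂ) :
    CfRep (fun z w => eval z p - eval w p) := by
  induction p using MvPolynomial.induction_on with
  | C a => simpa using (cfRep_zero (n := n))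
  | add p q hp hq =>
    have e : (fun z w => eval z (p + q) - eval w (p + q)) =
        fun z w : Fin n → ℂ => (eval z p - eval w p) + (eval z q - eval w q) := by
      funext z w
      simp only [map_add]
      ring
    rw [e]
    exact cfRep_add hp hq
  | mul_X p l hp =>
    have e : (fun z w => eval z (p * X l) - eval w (p * X l)) =
        fun z w : Fin n → ℂ => eval w (X l) * (eval z p - eval w p) + eval z p * (z l - w l) := by
      funext z w
      simp only [map_mul, eval_X]
      ring
    rw [e]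
    exact cfRep_add (cfRep_smooth hp (fun w => eval w (X l)) fun m => eval_contDiff (X l) (m := m))
      (cfRep_poly (cfRep_X l) p)

private lemma cfRep_fam {k : ℕ} (P : Fin k → MvPolynomial (Fin n) ℂ) :
    CfRep (fun z w => ∑ j, eval z (P j) * (starRingEnd ℂ) (eval w (P j)) -
      ((nrm P w : ℝ) : ℂ)) := by
  have e : (fun z w => ∑ j, eval z (P j) * (starRingEnd ℂ) (eval w (P j)) -
      ((nrm P w : ℝ) : ℂ)) = fun z w : Fin n → ℂ =>
        ∑ j, (starRingEnd ℂ) (eval w (P j)) * (eval z (P j) - eval w (P j)) := by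
    funext z w
    rw [nrm, Complex.ofReal_sum, ← Finset.sum_sub_distrib]
    refine Finset.sum_congr rfl fun j _ => ?_
    rw [Complex.ofReal_pow, ← Complex.mul_conj']
    ring
  rw [e]
  exact cfRep_sum _ _ fun j => cfRep_smooth (cfRep_diff (P j))
    (fun w => (starRingEnd ℂ) (eval w (P j))) fun m => conj_eval_contDiff (P j) (m := m)

theorem cf_decomp (P : Fin k → MvPolynomial (Fin n) ℂ) (Q : Fin l → MvPolynomial (Fin n) ℂ) :
    ∃ (N : ℕ) (α : Fin N → MvPolynomial (Fin n) ℂ) (β : Fin N → Fin n → (Fin n → ℂ) → ℂ),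
      (∀ i j, ∀ m : ℕ, ContDiff ℝ m (β i j)) ∧ ∀ z w,
      R2 P Q z w - ((r2 P Q w : ℝ) : ℂ) =
        ∑ j, (∑ i, eval z (α i) * β i j w) * (z j - w j) := by
  have h := cfRep_add (cfRep_fam P) (cfRep_neg (cfRep_fam Q))
  obtain ⟨ι, _, α, β, hβ, h⟩ := h
  obtain ⟨e⟩ : Nonempty (ι ≃ Fin (Fintype.card ι)) := ⟨Fintype.equivFin ι⟩
  refine ⟨Fintype.card ι, fun i => α (e.symm i), fun i => β (e.symm i), ?_, ?_⟩
  · intro i j m
    exact hβ _ j m
  · intro z w
    have h1 := h z w
    rw [R2, r2, Complex.ofReal_sub]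
    have h2 : ∀ j, ∑ i, eval z (α (e.symm i)) * β (e.symm i) j w =
        ∑ i, eval z (α i) * β i j w := fun j =>
      Equiv.sum_comp e.symm (fun i => eval z (α i) * β i j w)
    simp only [h2]
    rw [← h1]
    ring

end Pool.Agent.Work.MP_49847a_an
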