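import Pool.Agent.Work.MP_49847a_an.Rat.RDefs

/-!
# Module Clo: integrals of approximable functions are approximable

Proof.  `Y` is compact; let `S ⊆ C(Y, ℂ)` be the closure of the subspace of the restrictions of polynomials (a closed submodule).  For each `w` the function
`Ψ(·, w)` restricted to `Y` belongs to `S` (`happ`).  The map `w ↦ Ψ(·, w) ∈ C(Y, ℂ)` is continuous (`Ψ` is continuous on `Y × ℂⁿ`: curry,
`ContinuousMap.curry`, `Y` compact) and vanishes off `C`, so it is integrable (continuous with compact support), and its Bochner integral belongs to `S`: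
if not, there is a continuous linear functional vanishing on `S` but not at the integral (Hahn-Banach, `Submodule.exists_le_ker_of_notMem` /
`geometric_hahn_banach`), and it commutes with the integral (`ContinuousLinearMap.integral_comp_comm`); or integrate in the complete space `S`.
Evaluation at `z ∈ Y` commutes with the integral as well, so the integral is the function `z ↦ ∫ Ψ z w`.  Being in the closure of the polynomials,
it is approximated uniformly on `Y` (`Metric.mem_closure_iff`, `ContinuousMap.norm_coe_le_norm`).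
-/

namespace Pool.Agent.Work.MP_49847a_an

open MvPolynomial Filter Topology MeasureTheory

variable {n : ℕ}

theorem cf_clo {Y C : Set (Fin n → ℂ)} (hY : IsCompact Y) (hC : IsCompact C)
    {Ψ : (Fin n → ℂ) → (Fin n → ℂ) → ℂ}
    (hΨ : ContinuousOn (fun x : (Fin n → ℂ) × (Fin n → ℂ) => Ψ x.1 x.2) (Y ×ˢ Set.univ))
    (h0 : ∀ z ∈ Y, ∀ w, w ∉ C → Ψ z w = 0)
    (happ : ∀ w, ∀ ε : ℝ, 0 < ε → ∃ p : MvPolynomial (Fin n) ℂ, ∀ z ∈ Y, ‖Ψ z w - eval z p‖ ≤ ε)
    {ε : ℝ} (hε : 0 < ε) :
    ∃ p : MvPolynomial (Fin n) ℂ, ∀ z ∈ Y, ‖(∫ w, Ψ z w) - eval z p‖ ≤ ε := by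
  classical
  have : CompactSpace Y := isCompact_iff_compactSpace.1 hY
  -- the family as a continuous map
  let f : C((Fin n → ℂ) × Y, ℂ) := ⟨fun x => Ψ (x.2 : Fin n → ℂ) x.1, by
    have h1 : Continuous fun x : (Fin n → ℂ) × Y =>
        (((x.2 : Fin n → ℂ), x.1) : (Fin n → ℂ) × (Fin n → ℂ)) := by fun_prop
    exact hΨ.comp_continuous h1 fun x => ⟨x.2.2, Set.mem_univ _⟩⟩
  let G : (Fin n → ℂ) → C(Y, ℂ) := fun w => f.curry w
  have hGapp : ∀ w (z : Y), G w z = Ψ z w := fun w z => rfl
  have hGc : Continuous G := f.curry.continuous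
  have hG0 : ∀ w, w ∉ C → G w = 0 := by
    intro w hw
    ext z
    rw [hGapp]
    exact h0 z z.2 w hw
  -- restriction of polynomials
  let L : MvPolynomial (Fin n) ℂ →ₗ[ℂ] C(Y, ℂ) :=
    { toFun := fun p => ⟨fun z => eval (z : Fin n → ℂ) p,
        (MvPolynomial.continuous_eval p).comp continuous_subtype_val⟩
      map_add' := by
        intro p q
        ext z
        simp
      map_smul' := by
        intro c p
        ext z
        simp [MvPolynomial.smul_eval] }
  have hLapp : ∀ p (z : Y), L p z = eval (z : Fin n → ℂ) p := fun p z => rfl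
  let S : Submodule ℂ C(Y, ℂ) := (LinearMap.range L).topologicalClosure
  have hSclosed : IsClosed (S : Set C(Y, ℂ)) := Submodule.isClosed_topologicalClosure _
  have hGS : ∀ w, G w ∈ S := by
    intro w
    change G w ∈ closure ((LinearMap.range L : Submodule ℂ C(Y, ℂ)) : Set C(Y, ℂ))
    rw [Metric.mem_closure_iff]
    intro δ hδ
    obtain ⟨p, hp⟩ := happ w (δ / 2) (by linarith)
    refine ⟨L p, ⟨p, rfl⟩, ?_⟩
    have h2 : dist (G w) (L p) ≤ δ / 2 := by
      rw [ContinuousMap.dist_le (by linarith)]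
      intro z
      rw [dist_eq_norm, hGapp, hLapp]
      exact hp z z.2
    linarith
  have : CompleteSpace S := hSclosed.completeSpace_coe
  let G' : (Fin n → ℂ) → S := fun w => ⟨G w, hGS w⟩
  have hG'c : Continuous G' := hGc.subtype_mk _
  have hG's : HasCompactSupport G' := by
    refine HasCompactSupport.intro hC fun w hw => ?_
    exact Subtype.ext (hG0 w hw)
  have hGs : HasCompactSupport G := HasCompactSupport.intro hC fun w hw => hG0 w hw
  have hG'i : Integrable G' := hG'c.integrable_of_hasCompactSupport hG's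
  have hGi : Integrable G := hGc.integrable_of_hasCompactSupport hGs
  have hint : (∫ w, G w) ∈ S := by
    have h3 := ContinuousLinearMap.integral_comp_comm S.subtypeL hG'i
    have h4 : (∫ w, S.subtypeL (G' w)) = ∫ w, G w := rfl
    rw [h4] at h3
    rw [h3]
    exact (∫ w, G' w).2
  have hcl : (∫ w, G w) ∈ closure ((LinearMap.range L : Submodule ℂ C(Y, ℂ)) : Set C(Y, ℂ)) :=
    hint
  rw [Metric.mem_closure_iff] at hcl
  obtain ⟨q, ⟨p, rfl⟩, hq⟩ := hcl ε hε
  refine ⟨p, fun z hz => ?_⟩
  have h5 : (∫ w, G w) (⟨z, hz⟩ : Y) = ∫ w, Ψ z w := by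
    rw [ContinuousMap.integral_apply hGi]
    rfl
  have h6 := ContinuousMap.dist_apply_le_dist (f := ∫ w, G w) (g := L p) (⟨z, hz⟩ : Y)
  rw [dist_eq_norm, h5, hLapp] at h6
  exact h6.trans hq.le

end Pool.Agent.Work.MP_49847a_an
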