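import Pool.Agent.Work.MP_49847a_an.Cf.Frk
import Pool.Agent.Work.MP_49847a_an.Cf.Clo
import Pool.Agent.Work.MP_49847a_an.Rat.Ban

/-!
# Module Ker: the Cauchy-Fantappie integral is approximable

Proof.  Put `q z w = ∑_j (∑_i α_i(z) β_ij(w)) (z_j - w_j)`, `g z x j = ∑_i α_i(z) β_ij(x)`.  By `cf_frk`, `cfA (g z) k w = ∑_i α'_i(z) γ_ik(w)`, so with
`Ψ z w = ∑_k db k χ w * (cfA (g z) k w / q z w ^ n)`: `Ψ z w = (∑_i (∑_k db k χ w γ_ik(w)) α'_i(z)) / q z w ^ n`.  Apply `cf_clo` with `Y = insert a X` (compact).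
(h0) `db k χ w = 0` for `w ∉ C`.  (hΨ) `Y × ℂⁿ` is covered by the relatively open sets `Y × U` and `Y × Cᶜ`; on the first `q ≠ 0` and `Ψ` is a quotient of continuous functions
(`db k χ` is continuous: `db_contDiff` or `ContDiff.continuous_fderiv`), on the second it is zero.
(happ) for `w ∉ C` take `p = 0`.  Let `w ∈ C`: `z ↦ q z w` is (the evaluation of) a polynomial `f` (`∑_j (∑_i C (β_ij w) * α_i) * (X j - C (w j))`) without zeros on `hull X`, so for
every `δ > 0` `ban` gives a polynomial `G` with `‖1 - f G‖ < δ` on `X`, hence `≤ δ` at `a ∈ hull X` too.  `|f| ≥ μ > 0` on `Y`, so `‖1/f - G‖ ≤ δ/μ` on `Y`.  Products and sums of functions which are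
uniformly approximable by polynomials on the compact set `Y` are approximable; so `1/f^n` and `Ψ(·, w)` are.
-/

namespace Pool.Agent.Work.MP_49847a_an

open MvPolynomial Filter Topology MeasureTheory

variable {n : ℕ}

private theorem ker_app {X : Set (Fin n → ℂ)} {a : Fin n → ℂ} (hX : IsCompact X) (ha : a ∈ hull X)
    {f : MvPolynomial (Fin n) ℂ} (hf : ∀ z ∈ hull X, eval z f ≠ 0) (P : MvPolynomial (Fin n) ℂ)
    {ε : ℝ} (hε : 0 < ε) :
    ∃ p : MvPolynomial (Fin n) ℂ, ∀ z ∈ insert a X,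
      ‖eval z P / eval z f ^ n - eval z p‖ ≤ ε := by
  have hYh : ∀ z ∈ insert a X, z ∈ hull X := by
    rintro z (rfl | hz)
    · exact ha
    · exact fun p c h => h z hz
  have hY : IsCompact (insert a X) := hX.insert a
  obtain ⟨A, hA⟩ := hY.exists_bound_of_continuousOn
    (f := fun z => eval z P) (MvPolynomial.continuous_eval P).continuousOn
  obtain ⟨z₀, hz₀, hmin⟩ := hY.exists_isMinOn ⟨a, Set.mem_insert a X⟩
    (f := fun z => ‖eval z f‖) (MvPolynomial.continuous_eval f).norm.continuousOn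
  have hμ : 0 < ‖eval z₀ f‖ := norm_pos_iff.2 (hf z₀ (hYh z₀ hz₀))
  have hμn : 0 < ‖eval z₀ f‖ ^ n := pow_pos hμ n
  have hA0 : 0 ≤ A := (norm_nonneg _).trans (hA a (Set.mem_insert a X))
  have hη : 0 < ε * ‖eval z₀ f‖ ^ n / (A + 1) := by positivity
  have hcont : ContinuousAt (fun t : ℂ => t ^ n) 1 := (continuous_pow n).continuousAt
  obtain ⟨δ, hδ, hδ'⟩ := Metric.continuousAt_iff.1 hcont _ hη
  have hδ2 : 0 < δ / 2 := by positivity
  obtain ⟨G, hG⟩ := ban hX hf hδ2
  have hG' : ∀ z ∈ insert a X, ‖1 - eval z f * eval z G‖ ≤ δ / 2 := by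
    intro z hz
    have h1 := hYh z hz (1 - f * G) (δ / 2) (fun y hy => by
      rw [map_sub, map_one, map_mul]
      exact (hG y hy).le)
    rwa [map_sub, map_one, map_mul] at h1
  refine ⟨P * G ^ n, fun z hz => ?_⟩
  have hfz : eval z f ≠ 0 := hf z (hYh z hz)
  have h1 : ‖(eval z f * eval z G) ^ n - 1‖ ≤ ε * ‖eval z₀ f‖ ^ n / (A + 1) := by
    have h2 := hδ' (x := eval z f * eval z G) (by
      rw [dist_eq_norm, norm_sub_rev]
      have := hG' z hz
      linarith)
    rw [dist_eq_norm, one_pow] at h2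
    exact h2.le
  have h3 : eval z P / eval z f ^ n - eval z (P * G ^ n) =
      - (eval z P * ((eval z f * eval z G) ^ n - 1)) / eval z f ^ n := by
    rw [map_mul, map_pow, mul_pow]
    field_simp
    ring
  rw [h3, norm_div, norm_neg, norm_mul, norm_pow]
  have h4 : ‖eval z₀ f‖ ≤ ‖eval z f‖ := hmin hz
  have h5 : ‖eval z₀ f‖ ^ n ≤ ‖eval z f‖ ^ n := pow_le_pow_left₀ hμ.le h4 n
  have h6 : 0 < ‖eval z f‖ ^ n := lt_of_lt_of_le hμn h5
  rw [div_le_iff₀ h6]
  calc ‖eval z P‖ * ‖(eval z f * eval z G) ^ n - 1‖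
      ≤ (A + 1) * (ε * ‖eval z₀ f‖ ^ n / (A + 1)) := by
        apply mul_le_mul _ h1 (norm_nonneg _) (by linarith)
        have := hA z hz
        linarith
    _ = ε * ‖eval z₀ f‖ ^ n := by
        have : A + 1 ≠ 0 := by positivity
        field_simp
    _ ≤ ε * ‖eval z f‖ ^ n := by gcongr

theorem cf_ker {X U C : Set (Fin n → ℂ)} {a : Fin n → ℂ} (hX : IsCompact X) (ha : a ∈ hull X)
    (hU : IsOpen U) (hC : IsCompact C) (hCU : C ⊆ U) {χ : (Fin n → ℂ) → ℂ}
    (hχ : ∀ m : ℕ, ContDiff ℝ m χ) (hχC : ∀ w, w ∉ C → ∀ k, db k χ w = 0)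
    {N : ℕ} (α : Fin N → MvPolynomial (Fin n) ℂ) (β : Fin N → Fin n → (Fin n → ℂ) → ℂ)
    (hβ : ∀ i j, ∀ m : ℕ, ContDiff ℝ m (β i j))
    (hq : ∀ z ∈ hull X, ∀ w ∈ U, ∑ j, (∑ i, eval z (α i) * β i j w) * (z j - w j) ≠ 0)
    {ε : ℝ} (hε : 0 < ε) :
    ∃ p : MvPolynomial (Fin n) ℂ, ∀ z ∈ insert a X,
      ‖(∫ w, ∑ k, db k χ w * (cfA (fun x j => ∑ i, eval z (α i) * β i j x) k w /
        (∑ j, (∑ i, eval z (α i) * β i j w) * (z j - w j)) ^ n)) - eval z p‖ ≤ ε := by
  obtain ⟨N', α', γ, hγ, hfrk⟩ := cf_frk α β hβ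
  have hYh : ∀ z ∈ insert a X, z ∈ hull X := by
    rintro z (rfl | hz)
    · exact ha
    · exact fun p c h => h z hz
  have hβc : ∀ i j, Continuous (β i j) := fun i j => (hβ i j 0).continuous
  have hdb : ∀ k, Continuous (db k χ) := by
    intro k
    have h1 : ContDiff ℝ ((0 : ℕ) + 1) χ := by
      have h2 := hχ 1
      simpa using h2
    exact (db_contDiff h1 k).continuous
  have hqc : Continuous (fun x : (Fin n → ℂ) × (Fin n → ℂ) =>
      ∑ j, (∑ i, eval x.1 (α i) * β i j x.2) * (x.1 j - x.2 j)) := by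
    refine continuous_finset_sum _ fun j _ => Continuous.mul
      (continuous_finset_sum _ fun i _ => ?_) ?_
    · exact ((MvPolynomial.continuous_eval (α i)).comp continuous_fst).mul
        ((hβc i j).comp continuous_snd)
    · exact ((continuous_apply j).comp continuous_fst).sub
        ((continuous_apply j).comp continuous_snd)
  have hfrc : ∀ k, Continuous (fun x : (Fin n → ℂ) × (Fin n → ℂ) =>
      ∑ i, eval x.1 (α' i) * γ i k x.2) := by
    intro k
    refine continuous_finset_sum _ fun i _ => ?_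
    exact ((MvPolynomial.continuous_eval (α' i)).comp continuous_fst).mul
      ((hγ i k).comp continuous_snd)
  have h0 : ∀ z ∈ insert a X, ∀ w, w ∉ C →
      ∑ k, db k χ w * ((∑ i, eval z (α' i) * γ i k w) /
        (∑ j, (∑ i, eval z (α i) * β i j w) * (z j - w j)) ^ n) = 0 := by
    intro z _ w hw
    refine Finset.sum_eq_zero fun k _ => ?_
    rw [hχC w hw k, zero_mul]
  have key := cf_clo (Y := insert a X) (C := C)
    (Ψ := fun z w => ∑ k, db k χ w * ((∑ i, eval z (α' i) * γ i k w) /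
      (∑ j, (∑ i, eval z (α i) * β i j w) * (z j - w j)) ^ n)) (hX.insert a) hC ?_ h0 ?_ hε
  · obtain ⟨p, hp⟩ := key
    refine ⟨p, fun z hz => ?_⟩
    simp only [hfrk]
    exact hp z hz
  · rintro ⟨z₀, w₀⟩ ⟨hz₀, -⟩
    apply ContinuousAt.continuousWithinAt
    by_cases hw : w₀ ∈ C
    · have hq0 := hq z₀ (hYh z₀ hz₀) w₀ (hCU hw)
      refine tendsto_finset_sum _ fun k _ => ?_
      refine ContinuousAt.mul ((hdb k).comp continuous_snd).continuousAt ?_
      refine ContinuousAt.div (hfrc k).continuousAt (hqc.continuousAt.pow n) ?_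
      exact pow_ne_zero n hq0
    · have hopen : IsOpen {x : (Fin n → ℂ) × (Fin n → ℂ) | x.2 ∉ C} :=
        (hC.isClosed.isOpen_compl).preimage continuous_snd
      have hev : (fun x : (Fin n → ℂ) × (Fin n → ℂ) =>
          ∑ k, db k χ x.2 * ((∑ i, eval x.1 (α' i) * γ i k x.2) /
            (∑ j, (∑ i, eval x.1 (α i) * β i j x.2) * (x.1 j - x.2 j)) ^ n)) =ᶠ[𝓝 (z₀, w₀)]
          fun _ => 0 := by
        filter_upwards [hopen.mem_nhds hw] with x hx
        refine Finset.sum_eq_zero fun k _ => ?_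
        rw [hχC x.2 hx k, zero_mul]
      exact (continuousAt_const.congr hev.symm)
  · intro w ε' hε'
    by_cases hw : w ∈ C
    · have hf : ∀ z ∈ hull X, eval z (∑ j, (∑ i, MvPolynomial.C (β i j w) * α i) *
          (MvPolynomial.X j - MvPolynomial.C (w j))) ≠ 0 := by
        intro z hz
        have h1 := hq z hz w (hCU hw)
        have h2 : eval z (∑ j, (∑ i, MvPolynomial.C (β i j w) * α i) *
            (MvPolynomial.X j - MvPolynomial.C (w j))) =
            ∑ j, (∑ i, eval z (α i) * β i j w) * (z j - w j) := by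
          simp only [map_sum, map_mul, map_sub, eval_C, eval_X]
          refine Finset.sum_congr rfl fun j _ => ?_
          congr 1
          exact Finset.sum_congr rfl fun i _ => mul_comm _ _
        rw [h2]
        exact h1
      obtain ⟨p, hp⟩ := ker_app hX ha hf
        (∑ k, ∑ i, MvPolynomial.C (db k χ w * γ i k w) * α' i) hε'
      refine ⟨p, fun z hz => ?_⟩
      have h3 := hp z hz
      have h2 : eval z (∑ j, (∑ i, MvPolynomial.C (β i j w) * α i) *
          (MvPolynomial.X j - MvPolynomial.C (w j))) =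
          ∑ j, (∑ i, eval z (α i) * β i j w) * (z j - w j) := by
        simp only [map_sum, map_mul, map_sub, eval_C, eval_X]
        refine Finset.sum_congr rfl fun j _ => ?_
        congr 1
        exact Finset.sum_congr rfl fun i _ => mul_comm _ _
      have h4 : eval z (∑ k, ∑ i, MvPolynomial.C (db k χ w * γ i k w) * α' i) =
          ∑ k, db k χ w * (∑ i, eval z (α' i) * γ i k w) := by
        simp only [map_sum, map_mul, eval_C, Finset.mul_sum]
        refine Finset.sum_congr rfl fun k _ => Finset.sum_congr rfl fun i _ => ?_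
        ring
      rw [h2, h4, Finset.sum_div] at h3
      have h5 : ∑ k, db k χ w * ((∑ i, eval z (α' i) * γ i k w) /
          (∑ j, (∑ i, eval z (α i) * β i j w) * (z j - w j)) ^ n) =
          ∑ k, db k χ w * (∑ i, eval z (α' i) * γ i k w) /
            (∑ j, (∑ i, eval z (α i) * β i j w) * (z j - w j)) ^ n :=
        Finset.sum_congr rfl fun k _ => (mul_div_assoc _ _ _).symm
      rw [← h5] at h3
      exact h3
    · refine ⟨0, fun z hz => ?_⟩
      have h1 := h0 z hz w hw
      simp only [h1, map_zero, sub_zero, norm_zero]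
      exact hε'.le

end Pool.Agent.Work.MP_49847a_an
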