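import Pool.Agent.Work.MP_49847a_an.Cf.Bm

/-!
# Module Kon: the constant

Proof.  `db k (ct (nn (w - x)/δ)) = (deriv ct (nn (w - x)/δ) / δ) (w_k - x_k)` (`db_comp`, and `db k (nn (w - x)) = w_k - x_k`), and for `w ≠ x`
`cfA (bm x) k w = (-1)^(n-1) conj (x_k - w_k) / nn (x - w)^n` (`cfA_bm`).  The sum over `k` is
`(-1)^n (deriv ct (nn (w - x)/δ) / δ) nn (w - x)^(1 - n)`, that is `(-1)^n g(w - x)` with the real function
`g(u) = deriv ct (nn u/δ) / (δ nn u^(n-1))`; for `w = x` both sides vanish (`deriv ct 0 = 0`).  Translation invariance of the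
integral (`integral_sub_right_eq_self`): the integral is `(-1)^n ∫ g`, independent of `x`.  `g ≤ 0` (`ct_deriv_nonpos`), `g` is continuous with
compact support (it vanishes for `nn u < δ` and for `nn u > 2 δ`), and not identically zero (`ct_deriv_ne`; there is `u` with `nn u = t δ`, as `0 < n`), so
`∫ g < 0` (`Continuous.integral_pos_of_hasCompactSupport_nonneg_nonzero` for `-g`).
-/

namespace Pool.Agent.Work.MP_49847a_an

open MvPolynomial Filter Topology MeasureTheory

variable {n : ℕ}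

private theorem kon_nn_cont {n : ℕ} : Continuous (nn : (Fin n → ℂ) → ℝ) := by
  unfold nn
  exact continuous_finset_sum _ fun i _ => ((continuous_apply i).norm).pow 2

private theorem kon_nn_nonneg {n : ℕ} (z : Fin n → ℂ) : 0 ≤ nn z :=
  Finset.sum_nonneg fun i _ => sq_nonneg _

private theorem kon_nn_le {n : ℕ} (z : Fin n → ℂ) (i : Fin n) : ‖z i‖ ^ 2 ≤ nn z :=
  Finset.single_le_sum (f := fun i => ‖z i‖ ^ 2) (fun i _ => sq_nonneg _) (Finset.mem_univ i)

private theorem kon_nn_eq_zero {n : ℕ} {z : Fin n → ℂ} (h : nn z = 0) : z = 0 := by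
  funext i
  have h1 := kon_nn_le z i
  rw [h] at h1
  have h2 : ‖z i‖ = 0 := by nlinarith [norm_nonneg (z i), sq_nonneg ‖z i‖]
  exact norm_eq_zero.1 h2

private theorem kon_nn_sub_comm {n : ℕ} (z w : Fin n → ℂ) : nn (z - w) = nn (w - z) := by
  unfold nn
  refine Finset.sum_congr rfl fun i _ => ?_
  rw [Pi.sub_apply, Pi.sub_apply, norm_sub_rev]

private theorem kon_hasFDeriv {n : ℕ} (x w : Fin n → ℂ) :
    HasFDerivAt (fun y : Fin n → ℂ => nn (y - x))
      (∑ i, (2 : ℝ) • (innerSL ℝ (w i - x i)).comp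
        (ContinuousLinearMap.proj (R := ℝ) (φ := fun _ : Fin n => ℂ) i)) w := by
  have h : ∀ i ∈ (Finset.univ : Finset (Fin n)),
      HasFDerivAt (fun y : Fin n → ℂ => ‖y i - x i‖ ^ 2)
      ((2 : ℝ) • (innerSL ℝ (w i - x i)).comp
        (ContinuousLinearMap.proj (R := ℝ) (φ := fun _ : Fin n => ℂ) i)) w := by
    intro i _
    have h1 : HasFDerivAt (fun y : Fin n → ℂ => y i)
        (ContinuousLinearMap.proj (R := ℝ) (φ := fun _ : Fin n => ℂ) i) w :=
      hasFDerivAt_apply i w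
    have h2 : HasFDerivAt (fun y : Fin n → ℂ => y i - x i)
        (ContinuousLinearMap.proj (R := ℝ) (φ := fun _ : Fin n => ℂ) i) w :=
      h1.sub_const _
    have h3 := h2.norm_sq
    have e : ((2 : ℝ) • (innerSL ℝ (w i - x i)).comp
        (ContinuousLinearMap.proj (R := ℝ) (φ := fun _ : Fin n => ℂ) i)) =
        ((2 : ℕ) • (innerSL ℝ (w i - x i)).comp
        (ContinuousLinearMap.proj (R := ℝ) (φ := fun _ : Fin n => ℂ) i)) := by
      rw [two_smul, two_smul]
    rw [e]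
    exact h3
  have h4 := HasFDerivAt.fun_sum h
  exact h4

private theorem kon_hasFDeriv_div {n : ℕ} (x w : Fin n → ℂ) (δ : ℝ) :
    HasFDerivAt (fun y : Fin n → ℂ => nn (y - x) / δ)
      (δ⁻¹ • (∑ i, (2 : ℝ) • (innerSL ℝ (w i - x i)).comp
        (ContinuousLinearMap.proj (R := ℝ) (φ := fun _ : Fin n => ℂ) i))) w := by
  have heq : (fun y : Fin n → ℂ => nn (y - x) / δ) = fun y => δ⁻¹ * nn (y - x) := by
    funext y
    rw [div_eq_inv_mul]
  rw [heq]
  exact (kon_hasFDeriv x w).const_mul δ⁻¹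

private theorem kon_db_nn {n : ℕ} (x w : Fin n → ℂ) (δ : ℝ) (k : Fin n) :
    db k (fun y : Fin n → ℂ => ((nn (y - x) / δ : ℝ) : ℂ)) w = (w k - x k) / (δ : ℂ) := by
  have h2 := kon_hasFDeriv_div x w δ
  have h3 : fderiv ℝ (fun y : Fin n → ℂ => ((nn (y - x) / δ : ℝ) : ℂ)) w =
      Complex.ofRealCLM.comp (δ⁻¹ • (∑ i, (2 : ℝ) • (innerSL ℝ (w i - x i)).comp
        (ContinuousLinearMap.proj (R := ℝ) (φ := fun _ : Fin n => ℂ) i))) :=
    (Complex.ofRealCLM.hasFDerivAt.comp w h2).fderiv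
  have h4 : ∀ c : ℂ, (∑ i, (2 : ℝ) • (innerSL ℝ (w i - x i)).comp
        (ContinuousLinearMap.proj (R := ℝ) (φ := fun _ : Fin n => ℂ) i)) (Pi.single k c) =
        2 * ((w k - x k).re * c.re + (w k - x k).im * c.im) := by
    intro c
    rw [sum_apply, Finset.sum_eq_single k]
    · simp only [smul_apply, ContinuousLinearMap.comp_apply,
        ContinuousLinearMap.proj_apply, Pi.single_eq_same, innerSL_apply_apply, Complex.inner,
        smul_eq_mul, Complex.mul_re, Complex.conj_re, Complex.conj_im]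
      ring
    · intro i _ hi
      simp only [smul_apply, ContinuousLinearMap.comp_apply,
        ContinuousLinearMap.proj_apply, Pi.single_eq_of_ne hi, map_zero, smul_zero]
    · intro h
      exact absurd (Finset.mem_univ k) h
  unfold db
  rw [h3]
  simp only [ContinuousLinearMap.comp_apply, smul_apply, h4,
    Complex.ofRealCLM_apply, smul_eq_mul, Complex.one_re, Complex.one_im, Complex.I_re,
    Complex.I_im]
  have h5 : w k - x k = ((w k - x k).re : ℂ) + ((w k - x k).im : ℂ) * Complex.I :=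
    (Complex.re_add_im _).symm
  conv_rhs => rw [h5]
  push_cast
  rw [div_eq_mul_inv _ (δ : ℂ)]
  ring

private theorem kon_db_ct {n : ℕ} (x w : Fin n → ℂ) (δ : ℝ) (k : Fin n) :
    db k (fun y : Fin n → ℂ => ((ct (nn (y - x) / δ) : ℝ) : ℂ)) w =
      ((deriv ct (nn (w - x) / δ) : ℝ) : ℂ) * ((w k - x k) / (δ : ℂ)) := by
  have h1 : DifferentiableAt ℝ (fun y : Fin n → ℂ => nn (y - x) / δ) w :=
    (kon_hasFDeriv_div x w δ).differentiableAt
  have h2 : DifferentiableAt ℝ ct (nn (w - x) / δ) :=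
    ((ct_contDiff (m := 1)).differentiable one_ne_zero).differentiableAt
  have h3 := db_comp (γ := ct) (ρ := fun y : Fin n → ℂ => nn (y - x) / δ) h2 h1 k
  rw [h3, kon_db_nn]

private noncomputable def kg {n : ℕ} (δ : ℝ) (u : Fin n → ℂ) : ℝ :=
  deriv ct (nn u / δ) / (δ * nn u ^ (n - 1))

private theorem kon_integrand {n : ℕ} (hn : 0 < n) {δ : ℝ} (hδ : 0 < δ) (x w : Fin n → ℂ) :
    ∑ k, db k (fun w => ((ct (nn (w - x) / δ) : ℝ) : ℂ)) w * cfA (bm x) k w =
      (-1) ^ n * ((kg δ (w - x) : ℝ) : ℂ) := by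
  by_cases h : w = x
  · subst h
    have h1 : deriv ct (nn (w - w) / δ) = 0 := by
      apply ct_deriv_zero
      left
      have h2 : nn (w - w) = 0 := by
        rw [sub_self]
        unfold nn
        simp
      rw [h2, zero_div]
      exact zero_le_one
    have h3 : kg δ (w - w) = 0 := by
      unfold kg
      rw [h1, zero_div]
    rw [h3, Complex.ofReal_zero, mul_zero]
    refine Finset.sum_eq_zero fun k _ => ?_
    rw [kon_db_ct, h1, Complex.ofReal_zero, zero_mul, zero_mul]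
  · have hN : nn (w - x) ≠ 0 := fun h0 => h (sub_eq_zero.1 (kon_nn_eq_zero h0))
    have hNc : ((nn (w - x) : ℝ) : ℂ) ≠ 0 := Complex.ofReal_ne_zero.2 hN
    have hdc : (δ : ℂ) ≠ 0 := Complex.ofReal_ne_zero.2 hδ.ne'
    have h1 : ∀ k, db k (fun w => ((ct (nn (w - x) / δ) : ℝ) : ℂ)) w * cfA (bm x) k w =
        (((deriv ct (nn (w - x) / δ) : ℝ) : ℂ) / (δ : ℂ) * (-(-1) ^ (n - 1)) /
          ((nn (w - x) : ℝ) : ℂ) ^ n) * ((‖(w - x) k‖ ^ 2 : ℝ) : ℂ) := by
      intro k
      rw [kon_db_ct, cfA_bm h, kon_nn_sub_comm x w]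
      have h2 : ((‖(w - x) k‖ ^ 2 : ℝ) : ℂ) = (w k - x k) * (starRingEnd ℂ) (w k - x k) := by
        rw [Complex.mul_conj, Complex.normSq_eq_norm_sq]
        rfl
      have h3 : (starRingEnd ℂ) (x k - w k) = - (starRingEnd ℂ) (w k - x k) := by
        rw [← map_neg, neg_sub]
      rw [h2, h3]
      field_simp
    rw [Finset.sum_congr rfl fun k _ => h1 k, ← Finset.mul_sum, ← Complex.ofReal_sum]
    have h4 : (∑ k, ‖(w - x) k‖ ^ 2) = nn (w - x) := rfl
    rw [h4]
    obtain ⟨m, rfl⟩ : ∃ m, n = m + 1 := ⟨n - 1, by omega⟩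
    unfold kg
    push_cast
    rw [pow_succ (-1 : ℂ) m, pow_succ ((nn (w - x) : ℝ) : ℂ) m]
    field_simp

private theorem kon_kg_cont {n : ℕ} {δ : ℝ} (hδ : 0 < δ) :
    Continuous (kg (n := n) δ) := by
  rw [continuous_iff_continuousAt]
  intro u
  have hdc : Continuous (deriv ct) := (ct_contDiff (m := 1)).continuous_deriv (le_refl _)
  by_cases h : nn u = 0
  · have h1 : kg (n := n) δ =ᶠ[𝓝 u] fun _ => (0 : ℝ) := by
      have h2 : ∀ᶠ v in 𝓝 u, nn v < δ := by
        have h3 : Tendsto (nn : (Fin n → ℂ) → ℝ) (𝓝 u) (𝓝 0) := by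
          have := kon_nn_cont.tendsto u
          rwa [h] at this
        exact h3.eventually (gt_mem_nhds hδ)
      filter_upwards [h2] with v hv
      unfold kg
      rw [ct_deriv_zero (Or.inl ((div_le_one hδ).2 hv.le)), zero_div]
    exact (continuousAt_const.congr h1.symm)
  · unfold kg
    apply ContinuousAt.div
    · exact (hdc.comp (kon_nn_cont.div_const δ)).continuousAt
    · exact (continuous_const.mul (kon_nn_cont.pow _)).continuousAt
    · exact mul_ne_zero hδ.ne' (pow_ne_zero _ h)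

private theorem kon_kg_supp {n : ℕ} {δ : ℝ} (hδ : 0 < δ) :
    HasCompactSupport (kg (n := n) δ) := by
  have hK : IsCompact {u : Fin n → ℂ | nn u ≤ 2 * δ} := by
    apply Metric.isCompact_of_isClosed_isBounded
    · exact isClosed_le kon_nn_cont continuous_const
    · rw [isBounded_iff_forall_norm_le]
      refine ⟨Real.sqrt (2 * δ), fun u hu => ?_⟩
      rw [pi_norm_le_iff_of_nonneg (Real.sqrt_nonneg _)]
      intro i
      apply Real.le_sqrt_of_sq_le
      exact (kon_nn_le u i).trans hu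
  refine HasCompactSupport.intro hK fun u hu => ?_
  have h1 : 2 * δ < nn u := not_le.1 hu
  unfold kg
  rw [ct_deriv_zero (Or.inr ((le_div_iff₀ hδ).2 h1.le)), zero_div]

private theorem kon_kg_int {n : ℕ} (hn : 0 < n) {δ : ℝ} (hδ : 0 < δ) :
    ∫ u, kg (n := n) δ u ≠ 0 := by
  obtain ⟨t, ht1, ht2, ht⟩ := ct_deriv_ne
  have htd : 0 < t * δ := mul_pos (by linarith) hδ
  have hu : nn (Pi.single (⟨0, hn⟩ : Fin n) ((Real.sqrt (t * δ) : ℝ) : ℂ) : Fin n → ℂ)
      = t * δ := by
    unfold nn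
    rw [Finset.sum_eq_single (⟨0, hn⟩ : Fin n)]
    · rw [Pi.single_eq_same, Complex.norm_real, Real.norm_eq_abs, sq_abs, Real.sq_sqrt htd.le]
    · intro b _ hb
      rw [Pi.single_eq_of_ne hb, norm_zero]
      ring
    · intro h
      exact absurd (Finset.mem_univ _) h
  have h1 : 0 < ∫ u, (fun v => - kg (n := n) δ v) u := by
    refine Continuous.integral_pos_of_hasCompactSupport_nonneg_nonzero
      (x := (Pi.single (⟨0, hn⟩ : Fin n) ((Real.sqrt (t * δ) : ℝ) : ℂ) : Fin n → ℂ))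
      (kon_kg_cont hδ).neg ?_ ?_ ?_
    · exact (kon_kg_supp hδ).neg
    · intro v
      have h2 : kg (n := n) δ v ≤ 0 := by
        unfold kg
        exact div_nonpos_of_nonpos_of_nonneg (ct_deriv_nonpos _)
          (mul_nonneg hδ.le (pow_nonneg (kon_nn_nonneg v) _))
      show (0 : ℝ) ≤ - kg (n := n) δ v
      linarith
    · show - kg (n := n) δ _ ≠ 0
      rw [neg_ne_zero]
      unfold kg
      rw [hu]
      have h3 : t * δ / δ = t := by field_simp
      rw [h3]
      exact div_ne_zero ht (mul_ne_zero hδ.ne' (pow_ne_zero _ htd.ne'))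
  intro h0
  rw [integral_neg, h0, neg_zero] at h1
  exact lt_irrefl _ h1

theorem bm_const (hn : 0 < n) {δ : ℝ} (hδ : 0 < δ) : ∃ K : ℂ, K ≠ 0 ∧ ∀ x : Fin n → ℂ,
    ∫ w, ∑ k, db k (fun w => ((ct (nn (w - x) / δ) : ℝ) : ℂ)) w * cfA (bm x) k w = K := by
  refine ⟨(-1) ^ n * ((∫ u, kg (n := n) δ u : ℝ) : ℂ), ?_, fun x => ?_⟩
  · exact mul_ne_zero (pow_ne_zero _ (neg_ne_zero.2 one_ne_zero))
      (Complex.ofReal_ne_zero.2 (kon_kg_int hn hδ))
  · have h1 : (fun w : Fin n → ℂ => ∑ k, db k (fun w => ((ct (nn (w - x) / δ) : ℝ) : ℂ)) w *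
        cfA (bm x) k w) = fun w => (-1) ^ n * ((kg δ (w - x) : ℝ) : ℂ) := by
      funext w
      exact kon_integrand hn hδ x w
    rw [h1, integral_const_mul, integral_complex_ofReal]
    have h2 := integral_sub_right_eq_self (μ := (volume : Measure (Fin n → ℂ)))
      (kg (n := n) δ) x
    rw [h2]

end Pool.Agent.Work.MP_49847a_an
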