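import Pool.Agent.Work.MP_49847a_an.Cf.Shl
import Pool.Agent.Work.MP_49847a_an.Cf.Cut
import Pool.Agent.Work.MP_49847a_an.Cf.CfT
import Pool.Agent.Work.MP_49847a_an.Cf.Ker
import Pool.Agent.Work.MP_49847a_an.Cf.Dec
import Pool.Agent.Work.MP_49847a_an.Cf.Kon
import Pool.Agent.Work.MP_49847a_an.Cp.Hull3

/-!
# Module KPl: the hull is `{r ≤ 0}`

Proof.  Let `a ∈ hull (X2 P Q)` with `r2 a > 0`.  Take `R, m` from `cf_cut`, `c` from `cf_shell` with `R + 1`, made smaller than `m` (the statements of `cf_shell` remain true for smaller `c`), `χ` from `cf_cut`,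
`α, β` from `cf_decomp`, so `q z w = R2 z w - r2 w = ∑_j (∑_i α_i(z) β_ij(w)) (z_j - w_j)`.
`U = {w | nn w < R + 1 ∧ 0 < r2 w ∧ r2 w < c}` is open, `C = {w | nn w ≤ R ∧ c/3 ≤ r2 w ∧ r2 w ≤ 2c/3}` is compact and contained in `U`.
`q z w ≠ 0` for `z ∈ hull X`, `w ∈ U`.  No `z ∈ X2` and not `a` belongs to `U` (`r2 z = 0`, `r2 a > c`).  Let `K` be the constant of `bm_const` (`δ = 1`).
`cf_in` for `z ∈ X2`: the integral `e(z)` is `K`; `cf_out` for `z = a`: `e(a) = 0`.  By `cf_ker` with `ε = ‖K‖/3` there is a polynomial `p` with `‖K - p‖ ≤ ε` on `X2`,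
`‖p(a)‖ ≤ ε`.  Since `a ∈ hull X2`, `‖K - p(a)‖ ≤ ε` (polynomial `C K - p`).  So `‖K‖ ≤ 2 ε < ‖K‖`.  Contradiction.
-/

namespace Pool.Agent.Work.MP_49847a_an

open MvPolynomial Filter Topology MeasureTheory

variable {n k l : ℕ} {P : Fin k → MvPolynomial (Fin n) ℂ} {Q : Fin l → MvPolynomial (Fin n) ℂ}

theorem cf_hull_le (hn : 0 < n) (hP : Pos2 P Q) (h1 : Sep2 P Q) (h2 : Levi2 P Q)
    (h3 : Inn2 P Q) : ∀ a ∈ hull (X2 P Q), r2 P Q a ≤ 0 := by
  intro a ha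
  by_contra hra
  rw [not_le] at hra
  obtain ⟨R, m, hm, hRle, hcut⟩ := cf_cut hP
  obtain ⟨c₀, hc₀, hK₀, hq₀⟩ := cf_shell hP h1 h2 h3 (R + 1)
  obtain ⟨c, hc, hcc₀, hcm⟩ : ∃ c : ℝ, 0 < c ∧ c ≤ c₀ ∧ c < m :=
    ⟨min c₀ (m / 2), lt_min hc₀ (by linarith), min_le_left _ _,
      lt_of_le_of_lt (min_le_right _ _) (by linarith)⟩
  have hK : c < r2 P Q a := lt_of_le_of_lt hcc₀ (hK₀ a ha hra)
  obtain ⟨χ, hχ, hχc, hχ1, hχ0, hχC⟩ := hcut c hc hcm
  obtain ⟨N, α, β, hβ, hdec⟩ := cf_decomp P Q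
  set U : Set (Fin n → ℂ) := {w | nn w < R + 1 ∧ 0 < r2 P Q w ∧ r2 P Q w < c} with hU
  set C : Set (Fin n → ℂ) := {w | nn w ≤ R ∧ c / 3 ≤ r2 P Q w ∧ r2 P Q w ≤ 2 * c / 3} with hC
  have hr := r2_continuous P Q
  have hUo : IsOpen U := by
    have h4 : IsOpen {w : Fin n → ℂ | nn w < R + 1} := isOpen_lt nn_continuous continuous_const
    have h5 : IsOpen {w : Fin n → ℂ | 0 < r2 P Q w} := isOpen_lt continuous_const hr
    have h6 : IsOpen {w : Fin n → ℂ | r2 P Q w < c} := isOpen_lt hr continuous_const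
    exact h4.inter (h5.inter h6)
  have hCc : IsCompact C := by
    refine (nn_cpt (n := n) R).of_isClosed_subset ?_ fun w hw => hw.1
    have h4 : IsClosed {w : Fin n → ℂ | nn w ≤ R} := isClosed_le nn_continuous continuous_const
    have h5 : IsClosed {w : Fin n → ℂ | c / 3 ≤ r2 P Q w} := isClosed_le continuous_const hr
    have h6 : IsClosed {w : Fin n → ℂ | r2 P Q w ≤ 2 * c / 3} := isClosed_le hr continuous_const
    exact h4.inter (h5.inter h6)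
  have hCU : C ⊆ U := fun w hw => ⟨by linarith [hw.1], by linarith [hw.2.1], by linarith [hw.2.2]⟩
  have hq : ∀ z ∈ hull (X2 P Q), ∀ w ∈ U,
      ∑ j, (∑ i, eval z (α i) * β i j w) * (z j - w j) ≠ 0 := by
    intro z hz w hw
    rw [← hdec z w, sub_ne_zero]
    exact hq₀ z hz w hw.1.le hw.2.1 (hw.2.2.le.trans hcc₀)
  have hg : ∀ z : Fin n → ℂ, ∀ j, ∀ m : ℕ,
      ContDiff ℝ m (fun w => (fun (x : Fin n → ℂ) (j : Fin n) => ∑ i, eval z (α i) * β i j x) w j) := by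
    intro z j m
    exact ContDiff.sum fun i _ => contDiff_const.mul (hβ i j m)
  obtain ⟨K, hK0, hKx⟩ := bm_const (n := n) hn (δ := 1) one_pos
  have hX := X2_compact3 hP
  have hout := cf_out (n := n) (z := a) (U := U) (C := C) (χ := χ)
    (g := fun x j => ∑ i, eval a (α i) * β i j x) hUo hCc hCU
    (fun h => absurd h.2.2 (not_lt.2 hK.le)) hχ hχc (fun w hw => hχC w hw) (hg a)
    (fun w hw => hq a ha w hw) (hχ0 a hK)
  have hin : ∀ z ∈ X2 P Q, ∫ w, ∑ k, db k χ w *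
      (cfA (fun x j => ∑ i, eval z (α i) * β i j x) k w /
        (∑ j, (∑ i, eval z (α i) * β i j w) * (z j - w j)) ^ n) = K := by
    intro z hz
    have hz0 : r2 P Q z = 0 := hz
    have h4 := cf_in (n := n) (z := z) (U := U) (C := C) (χ := χ)
      (g := fun x j => ∑ i, eval z (α i) * β i j x) hUo hCc hCU
      (fun h => absurd h.2.1 (by rw [hz0]; exact lt_irrefl _)) hχ hχc (fun w hw => hχC w hw) (hg z)
      (fun w hw => hq z (subset_hull _ hz) w hw) (hχ1 z hz0.le)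
    rw [hKx z] at h4
    exact h4
  have hKn : 0 < ‖K‖ := norm_pos_iff.2 hK0
  obtain ⟨p, hp⟩ := cf_ker hX ha hUo hCc hCU hχ (fun w hw => hχC w hw) α β hβ hq
    (ε := ‖K‖ / 3) (by positivity)
  have hpa := hp a (Set.mem_insert _ _)
  rw [hout, zero_sub, norm_neg] at hpa
  have hpX : ∀ z ∈ X2 P Q, ‖eval z (MvPolynomial.C K - p)‖ ≤ ‖K‖ / 3 := by
    intro z hz
    have h4 := hp z (Set.mem_insert_of_mem _ hz)
    rw [hin z hz] at h4
    rwa [map_sub, eval_C]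
  have h5 := ha (MvPolynomial.C K - p) _ hpX
  rw [map_sub, eval_C] at h5
  have h6 : ‖K‖ ≤ ‖K - eval a p‖ + ‖eval a p‖ := by
    calc ‖K‖ = ‖(K - eval a p) + eval a p‖ := by rw [sub_add_cancel]
      _ ≤ _ := norm_add_le _ _
  linarith

end Pool.Agent.Work.MP_49847a_an
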