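import Pool.Agent.Work.MP_49847a_an.Cf.CfDefs

/-!
# Module Ct: the cut-off function

Proof.  `Real.smoothTransition` is smooth, nondecreasing, `0` on `(-∞, 0]`, `1` on `[1, ∞)`.
(ct_deriv_ne) otherwise the derivative vanishes on `(1, 2)` and `ct` is constant on `[1, 2]`, but `ct 1 = 1`, `ct 2 = 0`
(`is_const_of_deriv_eq_zero`, mean value theorem `exists_deriv_eq_slope`).
(ct_deriv_zero) `ct` is constant near every `t < 1` and every `t > 2`; the derivative is continuous, so it vanishes at `1`, `2` too.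
(r2_contDiff) `r2 P Q x = ∑ ‖P_j(x)‖² - ∑ ‖Q_j(x)‖²`, `‖a‖² = re(a)² + im(a)²`, and evaluations of polynomials are smooth (prove it for
`x ↦ eval x p` by induction on `p`, over `ℝ`).
-/

namespace Pool.Agent.Work.MP_49847a_an

open MvPolynomial Filter Topology MeasureTheory

theorem ct_contDiff {m : ℕ∞} : ContDiff ℝ m ct := by
  have h : ContDiff ℝ m (fun t : ℝ => (2 : ℝ) - t) := contDiff_const.sub contDiff_id
  exact Real.smoothTransition.contDiff.comp h

theorem ct_one {t : ℝ} (h : t ≤ 1) : ct t = 1 := by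
  unfold ct
  exact Real.smoothTransition.one_of_one_le (by linarith)

theorem ct_zero {t : ℝ} (h : 2 ≤ t) : ct t = 0 := by
  unfold ct
  exact Real.smoothTransition.zero_of_nonpos (by linarith)

private theorem ct_anti : Antitone ct := by
  intro a b hab
  unfold ct
  exact Real.smoothTransition.monotone (by linarith)

theorem ct_deriv_nonpos (t : ℝ) : deriv ct t ≤ 0 := ct_anti.deriv_nonpos

private theorem ct_deriv_cont : Continuous (deriv ct) :=
  (ct_contDiff (m := 1)).continuous_deriv (le_refl _)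

theorem ct_deriv_zero {t : ℝ} (h : t ≤ 1 ∨ 2 ≤ t) : deriv ct t = 0 := by
  have h1 : ∀ s ∈ Set.Iio (1 : ℝ), deriv ct s = 0 := by
    intro s hs
    have h2 : ct =ᶠ[𝓝 s] fun _ => (1 : ℝ) := by
      filter_upwards [Iio_mem_nhds hs] with x hx
      exact ct_one (le_of_lt hx)
    rw [h2.deriv_eq, deriv_const]
  have h3 : ∀ s ∈ Set.Ioi (2 : ℝ), deriv ct s = 0 := by
    intro s hs
    have h2 : ct =ᶠ[𝓝 s] fun _ => (0 : ℝ) := by
      filter_upwards [Ioi_mem_nhds hs] with x hx
      exact ct_zero (le_of_lt hx)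
    rw [h2.deriv_eq, deriv_const]
  have hcl : IsClosed {s : ℝ | deriv ct s = 0} := isClosed_eq ct_deriv_cont continuous_const
  rcases h with h | h
  · have h4 : Set.Iic (1 : ℝ) ⊆ {s : ℝ | deriv ct s = 0} := by
      rw [← closure_Iio]
      exact hcl.closure_subset_iff.2 h1
    exact h4 h
  · have h4 : Set.Ici (2 : ℝ) ⊆ {s : ℝ | deriv ct s = 0} := by
      rw [← closure_Ioi]
      exact hcl.closure_subset_iff.2 h3
    exact h4 h

theorem ct_deriv_ne : ∃ t : ℝ, 1 < t ∧ t < 2 ∧ deriv ct t ≠ 0 := by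
  have hd : Differentiable ℝ ct := (ct_contDiff (m := 1)).differentiable one_ne_zero
  obtain ⟨c, hc, hc2⟩ := exists_deriv_eq_slope ct (show (1 : ℝ) < 2 by norm_num)
    hd.continuous.continuousOn hd.differentiableOn
  refine ⟨c, hc.1, hc.2, ?_⟩
  rw [hc2, ct_one le_rfl, ct_zero le_rfl]
  norm_num

theorem nn_contDiff {n : ℕ} (x : Fin n → ℂ) {m : ℕ∞} :
    ContDiff ℝ m (fun w : Fin n → ℂ => nn (w - x)) := by
  unfold nn
  apply ContDiff.sum
  intro i _
  have h : ContDiff ℝ m (fun w : Fin n → ℂ => (w - x) i) := by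
    have h1 : ContDiff ℝ m (fun w : Fin n → ℂ => w i) := contDiff_apply ℝ ℂ i
    exact h1.sub contDiff_const
  exact h.norm_sq ℝ

end Pool.Agent.Work.MP_49847a_an
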