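import Pool.Agent.Work.MP_49847a_an.Cf.DetZ
import Pool.Agent.Work.MP_49847a_an.Cf.Ct

/-!
# Module Bm: the Bochner-Martinelli section

Proof.  Let `u = z - w ≠ 0`, `N = nn u = ∑ ‖u_i‖² > 0` (`(N : ℂ) = ∑ u_i conj(u_i)`), `s_j = conj(u_j)/N`.
(bm_pair) `∑_j conj(u_j) u_j / N = 1`.
(bm_contDiffAt) quotient of smooth functions, `N ≠ 0`.
(cfA_bm) `db m (conj u_j) = -δ_{jm}` and `db m N = - u_m` (as functions of `w`), `db m (1/N) = u_m/N²` (`db_inv`), so
`db m s_j = - δ_{jm}/N + s_j u_m / N`.  So column `m ≠ k` of the matrix `(cfJ s w).updateCol k (s w)` is `- e_m/N + (u_m/N) (column k)`: by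
column operations (`Matrix.det_eq_of_forall_col_eq_smul_add_const`) the determinant is that of the matrix with columns `-e_m/N` for `m ≠ k` and `s` for
`m = k`, that is of `(-1/N) • 1` with column `k` replaced by `s w`, which is `(-1/N)^(n-1) s_k` (`Matrix.det_updateCol_smul`, `Matrix.cramer`, or
`det ((c • 1).updateCol k s) = c^(n-1) s_k`).
-/

namespace Pool.Agent.Work.MP_49847a_an

open MvPolynomial Filter Topology MeasureTheory

variable {n : ℕ} {z w : Fin n → ℂ}

private theorem bm_nn (z x : Fin n → ℂ) : ((nn (z - x) : ℝ) : ℂ) =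
    ∑ i, (starRingEnd ℂ) (z i - x i) * (z i - x i) := by
  unfold nn
  rw [Complex.ofReal_sum]
  refine Finset.sum_congr rfl fun i _ => ?_
  rw [Pi.sub_apply, mul_comm, Complex.mul_conj, Complex.normSq_eq_norm_sq]

private theorem bm_nn_ne (h : w ≠ z) : ((nn (z - w) : ℝ) : ℂ) ≠ 0 := by
  have h1 : nn (z - w) ≠ 0 := by
    intro h0
    apply h
    funext i
    have h2 := (Finset.sum_eq_zero_iff_of_nonneg (fun i _ => by positivity)).1 h0 i
      (Finset.mem_univ i)
    have h3 : (z - w) i = 0 := norm_eq_zero.1 (pow_eq_zero_iff (two_ne_zero)|>.1 h2)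
    rw [Pi.sub_apply, sub_eq_zero] at h3
    exact h3.symm
  exact_mod_cast h1

private theorem bm_coord_cd {m : ℕ∞} (z : Fin n → ℂ) (i : Fin n) :
    ContDiff ℝ m (fun x : Fin n → ℂ => z i - x i) :=
  contDiff_const.sub (ContinuousLinearMap.proj i : (Fin n → ℂ) →L[ℝ] ℂ).contDiff

private theorem bm_conj_cd {m : ℕ∞} (z : Fin n → ℂ) (i : Fin n) :
    ContDiff ℝ m (fun x : Fin n → ℂ => (starRingEnd ℂ) (z i - x i)) :=
  (Complex.conjCLE : ℂ →L[ℝ] ℂ).contDiff.comp (bm_coord_cd z i)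

private theorem bm_nn_cd {m : ℕ∞} (z : Fin n → ℂ) :
    ContDiff ℝ m (fun x : Fin n → ℂ => ((nn (z - x) : ℝ) : ℂ)) := by
  have : (fun x : Fin n → ℂ => ((nn (z - x) : ℝ) : ℂ)) =
      fun x => ∑ i, (starRingEnd ℂ) (z i - x i) * (z i - x i) := by
    funext x
    exact bm_nn z x
  rw [this]
  exact ContDiff.sum fun i _ => (bm_conj_cd z i).mul (bm_coord_cd z i)

theorem bm_pair (h : w ≠ z) : ∑ j, bm z w j * (z j - w j) = 1 := by
  have h0 := bm_nn_ne h
  unfold bm
  have e : ∀ j, (starRingEnd ℂ) (z j - w j) / ((nn (z - w) : ℝ) : ℂ) * (z j - w j) =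
      ((nn (z - w) : ℝ) : ℂ)⁻¹ * ((starRingEnd ℂ) (z j - w j) * (z j - w j)) := fun j => by
    rw [div_eq_mul_inv]
    ring
  simp only [e]
  rw [← Finset.mul_sum, ← bm_nn, inv_mul_cancel₀ h0]

theorem bm_contDiffAt (h : w ≠ z) {m : ℕ∞} (j : Fin n) :
    ContDiffAt ℝ m (fun x => bm z x j) w := by
  have h1 : ContDiffAt ℝ m (fun x : Fin n → ℂ => (starRingEnd ℂ) (z j - x j)) w :=
    (bm_conj_cd z j).contDiffAt
  have h2 : ContDiffAt ℝ m (fun x : Fin n → ℂ => (((nn (z - x) : ℝ) : ℂ))⁻¹) w :=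
    (bm_nn_cd z).contDiffAt.inv (bm_nn_ne h)
  have e : (fun x => bm z x j) =
      fun x => (starRingEnd ℂ) (z j - x j) * (((nn (z - x) : ℝ) : ℂ))⁻¹ := by
    funext x
    unfold bm
    rw [div_eq_mul_inv]
  rw [e]
  exact h1.mul h2

private theorem bm_coord_d (z w : Fin n → ℂ) (i : Fin n) :
    DifferentiableAt ℝ (fun x : Fin n → ℂ => z i - x i) w :=
  (bm_coord_cd (m := 1) z i).differentiable (by norm_num) w

private theorem bm_conj_d (z w : Fin n → ℂ) (i : Fin n) :
    DifferentiableAt ℝ (fun x : Fin n → ℂ => (starRingEnd ℂ) (z i - x i)) w :=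
  (bm_conj_cd (m := 1) z i).differentiable (by norm_num) w

private theorem bm_nn_d (z w : Fin n → ℂ) :
    DifferentiableAt ℝ (fun x : Fin n → ℂ => ((nn (z - x) : ℝ) : ℂ)) w :=
  (bm_nn_cd (m := 1) z).differentiable (by norm_num) w

private theorem bm_X_d (w : Fin n → ℂ) (i : Fin n) :
    DifferentiableAt ℝ (fun x : Fin n → ℂ => x i) w :=
  (ContinuousLinearMap.proj i : (Fin n → ℂ) →L[ℝ] ℂ).differentiableAt

private theorem bm_conjX_d (w : Fin n → ℂ) (i : Fin n) :
    DifferentiableAt ℝ (fun x : Fin n → ℂ => (starRingEnd ℂ) (x i)) w :=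
  ((Complex.conjCLE : ℂ →L[ℝ] ℂ).comp
    (ContinuousLinearMap.proj i : (Fin n → ℂ) →L[ℝ] ℂ)).differentiableAt

private theorem bm_db_coord (z w : Fin n → ℂ) (m i : Fin n) :
    db m (fun x : Fin n → ℂ => z i - x i) w = 0 := by
  rw [db_sub (differentiableAt_const _) (bm_X_d w i), db_const, db_X, sub_zero]

private theorem bm_db_conj (z w : Fin n → ℂ) (m i : Fin n) :
    db m (fun x : Fin n → ℂ => (starRingEnd ℂ) (z i - x i)) w = -(if i = m then 1 else 0) := by
  have e : (fun x : Fin n → ℂ => (starRingEnd ℂ) (z i - x i)) =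
      fun x => (starRingEnd ℂ) (z i) - (starRingEnd ℂ) (x i) := by
    funext x
    rw [map_sub]
  rw [e, db_sub (differentiableAt_const _) (bm_conjX_d w i), db_const, db_conj_X, zero_sub]

private theorem bm_db_nn (z w : Fin n → ℂ) (m : Fin n) :
    db m (fun x : Fin n → ℂ => ((nn (z - x) : ℝ) : ℂ)) w = -(z m - w m) := by
  have e : (fun x : Fin n → ℂ => ((nn (z - x) : ℝ) : ℂ)) =
      fun x => ∑ i, (starRingEnd ℂ) (z i - x i) * (z i - x i) := by
    funext x
    exact bm_nn z x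
  have hd : ∀ i ∈ Finset.univ, DifferentiableAt ℝ
      (fun x : Fin n → ℂ => (starRingEnd ℂ) (z i - x i) * (z i - x i)) w :=
    fun i _ => (bm_conj_d z w i).mul (bm_coord_d z w i)
  rw [e, db_sum _ hd]
  have e2 : ∀ i, db m (fun x : Fin n → ℂ => (starRingEnd ℂ) (z i - x i) * (z i - x i)) w =
      if i = m then -(z m - w m) else 0 := by
    intro i
    rw [db_mul (bm_conj_d z w i) (bm_coord_d z w i), bm_db_coord, bm_db_conj]
    split_ifs with him
    · rw [him]
      ring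
    · ring
  simp only [e2]
  rw [Finset.sum_ite_eq' Finset.univ m, if_pos (Finset.mem_univ m)]

private theorem bm_db (h : w ≠ z) (m j : Fin n) :
    db m (fun x => bm z x j) w = bm z w j * ((z m - w m) / ((nn (z - w) : ℝ) : ℂ)) -
      (if j = m then 1 else 0) / ((nn (z - w) : ℝ) : ℂ) := by
  have h0 := bm_nn_ne h
  have e : (fun x => bm z x j) =
      fun x => (starRingEnd ℂ) (z j - x j) * (((nn (z - x) : ℝ) : ℂ))⁻¹ := by
    funext x
    unfold bm
    rw [div_eq_mul_inv]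
  have hi : DifferentiableAt ℝ (fun x : Fin n → ℂ => (((nn (z - x) : ℝ) : ℂ))⁻¹) w :=
    (bm_nn_d z w).inv h0
  rw [e, db_mul (bm_conj_d z w j) hi, bm_db_conj, db_inv (bm_nn_d z w) h0, bm_db_nn]
  unfold bm
  field_simp
  ring

private theorem bm_det_col {A B : Matrix (Fin n) (Fin n) ℂ} (c : Fin n → ℂ) (k : Fin n)
    (hk : c k = 0) (h : ∀ i j, A i j = B i j + c j * B i k) : A.det = B.det := by
  rw [← Matrix.det_transpose A, ← Matrix.det_transpose B]
  exact Matrix.det_eq_of_forall_row_eq_smul_add_const c k hk fun i j => h j i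

theorem cfA_bm (h : w ≠ z) (k : Fin n) : cfA (bm z) k w =
    (-1) ^ (n - 1) * (starRingEnd ℂ) (z k - w k) / ((nn (z - w) : ℝ) : ℂ) ^ n := by
  have h0 := bm_nn_ne h
  have hJ : ∀ j m, cfJ (bm z) w j m = bm z w j * ((z m - w m) / ((nn (z - w) : ℝ) : ℂ)) -
      (if j = m then 1 else 0) / ((nn (z - w) : ℝ) : ℂ) := fun j m => bm_db h m j
  set N : ℂ := ((nn (z - w) : ℝ) : ℂ) with hN
  have hcol : ((cfJ (bm z) w).updateCol k (bm z w)).det =
      (((-N⁻¹) • (1 : Matrix (Fin n) (Fin n) ℂ)).updateCol k (bm z w)).det := by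
    refine bm_det_col
      (fun m => if m = k then 0 else (z m - w m) / N) k (if_pos rfl) fun i j => ?_
    by_cases hj : j = k
    · subst hj
      simp
    · simp only [Matrix.updateCol_ne hj, Matrix.updateCol_self, if_neg hj]
      rw [hJ]
      simp only [Matrix.smul_apply, Matrix.one_apply, smul_eq_mul]
      rw [div_eq_mul_inv (if i = j then (1 : ℂ) else 0)]
      ring
  have hdet : (((-N⁻¹) • (1 : Matrix (Fin n) (Fin n) ℂ)).updateCol k (bm z w)).det =
      (-N⁻¹) ^ (n - 1) * bm z w k := by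
    rw [← Matrix.cramer_apply, Matrix.cramer_smul, Matrix.cramer_one, Fintype.card_fin]
    simp
  unfold cfA
  rw [hcol, hdet]
  have hn : n = (n - 1) + 1 := by
    have := k.pos
    omega
  have hbm : bm z w k = (starRingEnd ℂ) (z k - w k) / N := rfl
  rw [hbm]
  generalize (starRingEnd ℂ) (z k - w k) = c
  have e1 : (-N⁻¹) ^ (n - 1) = (-1) ^ (n - 1) * (N ^ (n - 1))⁻¹ := by
    rw [neg_pow, inv_pow]
  have e2 : N ^ n = N ^ (n - 1) * N := by
    conv_lhs => rw [hn]
    rw [pow_succ]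
  rw [e1, e2]
  field_simp

end Pool.Agent.Work.MP_49847a_an
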