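import Pool.Agent.Work.MP_49847a_an.Rat.RDefs

/-!
# Cauchy-Fantappie kernels: definitions

* `db k f = ∂f/∂(conj w_k)`;
* `cfJ s`: the matrix `(∂s_j/∂(conj w_m))_{j,m}`, `cfA s k`: its determinant with column `k` replaced by `s`;
* `bm z w`: the Bochner-Martinelli section `conj (z - w) / ‖z - w‖²`;
* `ct`: a smooth function on the line, `1` on `(-∞, 1]`, `0` on `[2, ∞)`.
-/

namespace Pool.Agent.Work.MP_49847a_an

open MvPolynomial

/-- `∂f/∂(conj w_k)` -/
noncomputable def db {n : ℕ} (k : Fin n) (f : (Fin n → ℂ) → ℂ) (w : Fin n → ℂ) : ℂ :=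
  (fderiv ℝ f w (Pi.single k 1) + Complex.I * fderiv ℝ f w (Pi.single k Complex.I)) / 2

/-- the matrix `(∂s_j/∂(conj w_m))_{j,m}` -/
noncomputable def cfJ {n : ℕ} (s : (Fin n → ℂ) → Fin n → ℂ) (w : Fin n → ℂ) :
    Matrix (Fin n) (Fin n) ℂ :=
  Matrix.of fun j m => db m (fun x => s x j) w

/-- the determinant of `cfJ s` with column `k` replaced by `s` -/
noncomputable def cfA {n : ℕ} (s : (Fin n → ℂ) → Fin n → ℂ) (k : Fin n) (w : Fin n → ℂ) : ℂ :=
  ((cfJ s w).updateCol k (s w)).det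

/-- the Bochner-Martinelli section -/
noncomputable def bm {n : ℕ} (z w : Fin n → ℂ) : Fin n → ℂ :=
  fun j => (starRingEnd ℂ) (z j - w j) / ((nn (z - w) : ℝ) : ℂ)

/-- a smooth function which is `1` on `(-∞, 1]` and `0` on `[2, ∞)` -/
noncomputable def ct (t : ℝ) : ℝ := Real.smoothTransition (2 - t)

end Pool.Agent.Work.MP_49847a_an
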