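import Pool.Agent.Work.MP_49847a_an.Cf.DbA

/-!
# Module DbB: `db` of polynomials, smoothness, symmetry

Proof.  (db_X, db_conj_X) `fderiv` of the continuous real linear maps `x ↦ x j`, `x ↦ conj (x j)`, evaluated at `Pi.single k 1` and `Pi.single k I`.
(db_eval) induction on `p` with `db_add`, `db_mul`, `db_X`, `db_const`.  (db_conj_eval) the same, `Derivation.leibniz`.
(contDiff) induction on `p`.  (db_contDiffAt) `ContDiffAt.fderiv_right` and evaluation at fixed vectors (`ContDiffAt.clm_apply`).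
(db_comm) symmetry of second derivatives (`ContDiffAt.isSymmSndFDerivAt`): `db l f x` is a combination of `fderiv ℝ f x v` for two fixed vectors `v`,
and `fderiv ℝ (fun x => fderiv ℝ f x v) w u = fderiv ℝ (fderiv ℝ f) w u v` (`f` is twice differentiable near `w`).
-/

namespace Pool.Agent.Work.MP_49847a_an

open MvPolynomial Filter Topology MeasureTheory

variable {n : ℕ} {f g : (Fin n → ℂ) → ℂ} {w : Fin n → ℂ}

theorem db_X (k j : Fin n) (w : Fin n → ℂ) : db k (fun x => x j) w = 0 := by
  have h : HasFDerivAt (fun x : Fin n → ℂ => x j)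
      (ContinuousLinearMap.proj j : (Fin n → ℂ) →L[ℝ] ℂ) w :=
    (ContinuousLinearMap.proj j : (Fin n → ℂ) →L[ℝ] ℂ).hasFDerivAt
  unfold db
  rw [h.fderiv, ContinuousLinearMap.proj_apply, ContinuousLinearMap.proj_apply]
  by_cases hj : j = k
  · subst hj
    rw [Pi.single_eq_same, Pi.single_eq_same, Complex.I_mul_I]
    norm_num
  · rw [Pi.single_eq_of_ne hj, Pi.single_eq_of_ne hj]
    norm_num

theorem db_conj_X (k j : Fin n) (w : Fin n → ℂ) :
    db k (fun x => (starRingEnd ℂ) (x j)) w = if j = k then 1 else 0 := by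
  have h : HasFDerivAt (fun x : Fin n → ℂ => (starRingEnd ℂ) (x j))
      ((Complex.conjCLE : ℂ →L[ℝ] ℂ).comp
        (ContinuousLinearMap.proj j : (Fin n → ℂ) →L[ℝ] ℂ)) w :=
    ((Complex.conjCLE : ℂ →L[ℝ] ℂ).comp
      (ContinuousLinearMap.proj j : (Fin n → ℂ) →L[ℝ] ℂ)).hasFDerivAt
  have e : ∀ v : Fin n → ℂ, ((Complex.conjCLE : ℂ →L[ℝ] ℂ).comp
      (ContinuousLinearMap.proj j : (Fin n → ℂ) →L[ℝ] ℂ)) v = (starRingEnd ℂ) (v j) :=
    fun v => rfl
  unfold db
  rw [h.fderiv, e, e]
  by_cases hj : j = k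
  · subst hj
    rw [Pi.single_eq_same, Pi.single_eq_same, Complex.conj_I, map_one, if_pos rfl, mul_neg,
      Complex.I_mul_I]
    norm_num
  · rw [Pi.single_eq_of_ne hj, Pi.single_eq_of_ne hj, if_neg hj]
    simp

theorem eval_contDiff (p : MvPolynomial (Fin n) ℂ) {m : ℕ∞} :
    ContDiff ℝ m (fun x : Fin n → ℂ => eval x p) := by
  induction p using MvPolynomial.induction_on with
  | C a =>
    simp only [eval_C]
    exact contDiff_const
  | add p q hp hq =>
    simp only [map_add]
    exact hp.add hq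
  | mul_X p j hp =>
    simp only [map_mul, eval_X]
    exact hp.mul (contDiff_apply ℝ ℂ j)

theorem conj_eval_contDiff (p : MvPolynomial (Fin n) ℂ) {m : ℕ∞} :
    ContDiff ℝ m (fun x : Fin n → ℂ => (starRingEnd ℂ) (eval x p)) :=
  (Complex.conjCLE : ℂ →L[ℝ] ℂ).contDiff.comp (eval_contDiff p)

private theorem eval_diff (p : MvPolynomial (Fin n) ℂ) (w : Fin n → ℂ) :
    DifferentiableAt ℝ (fun x : Fin n → ℂ => eval x p) w :=
  ((eval_contDiff p (m := 1)).differentiable (by norm_num)) w

private theorem conj_eval_diff (p : MvPolynomial (Fin n) ℂ) (w : Fin n → ℂ) :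
    DifferentiableAt ℝ (fun x : Fin n → ℂ => (starRingEnd ℂ) (eval x p)) w :=
  ((conj_eval_contDiff p (m := 1)).differentiable (by norm_num)) w

private theorem X_diff (j : Fin n) (w : Fin n → ℂ) :
    DifferentiableAt ℝ (fun x : Fin n → ℂ => x j) w := by
  have h := eval_diff (X j) w
  simp only [eval_X] at h
  exact h

private theorem conj_X_diff (j : Fin n) (w : Fin n → ℂ) :
    DifferentiableAt ℝ (fun x : Fin n → ℂ => (starRingEnd ℂ) (x j)) w := by
  have h := conj_eval_diff (X j) w
  simp only [eval_X] at h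
  exact h

theorem db_eval (p : MvPolynomial (Fin n) ℂ) (k : Fin n) (w : Fin n → ℂ) :
    db k (fun x => eval x p) w = 0 := by
  induction p using MvPolynomial.induction_on with
  | C a =>
    simp only [eval_C]
    exact db_const a k w
  | add p q hp hq =>
    simp only [map_add]
    rw [db_add (eval_diff p w) (eval_diff q w), hp, hq, add_zero]
  | mul_X p j hp =>
    simp only [map_mul, eval_X]
    rw [db_mul (eval_diff p w) (X_diff j w), hp, db_X, mul_zero, zero_mul, add_zero]

theorem db_conj_eval (p : MvPolynomial (Fin n) ℂ) (k : Fin n) (w : Fin n → ℂ) :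
    db k (fun x => (starRingEnd ℂ) (eval x p)) w = (starRingEnd ℂ) (eval w (pderiv k p)) := by
  induction p using MvPolynomial.induction_on with
  | C a =>
    simp only [eval_C, pderiv_C, map_zero]
    exact db_const _ k w
  | add p q hp hq =>
    simp only [map_add]
    rw [db_add (conj_eval_diff p w) (conj_eval_diff q w), hp, hq]
  | mul_X p j hp =>
    simp only [map_mul, eval_X]
    rw [db_mul (conj_eval_diff p w) (conj_X_diff j w), hp, db_conj_X, Derivation.leibniz]
    simp only [smul_eq_mul, map_add, map_mul, eval_X]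
    by_cases hj : j = k
    · subst hj
      rw [pderiv_X_self, if_pos rfl, map_one, map_one]
      ring
    · rw [pderiv_X_of_ne hj, if_neg hj, map_zero, map_zero]
      ring

theorem db_contDiffAt {m : ℕ} (hf : ContDiffAt ℝ (m + 1) f w) (k : Fin n) :
    ContDiffAt ℝ m (db k f) w := by
  have h : ContDiffAt ℝ m (fderiv ℝ f) w := hf.fderiv_right le_rfl
  have h1 : ContDiffAt ℝ m (fun x => fderiv ℝ f x (Pi.single k 1)) w :=
    h.clm_apply contDiffAt_const
  have h2 : ContDiffAt ℝ m (fun x => fderiv ℝ f x (Pi.single k Complex.I)) w :=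
    h.clm_apply contDiffAt_const
  exact (h1.add (contDiffAt_const.mul h2)).div_const 2

theorem db_contDiff {m : ℕ} (hf : ContDiff ℝ (m + 1) f) (k : Fin n) :
    ContDiff ℝ m (db k f) := by
  rw [contDiff_iff_contDiffAt] at hf ⊢
  exact fun x => db_contDiffAt (hf x) k

private theorem fd2 (hf : ContDiffAt ℝ 2 f w) (v : Fin n → ℂ) :
    HasFDerivAt (fun x => fderiv ℝ f x v)
      ((ContinuousLinearMap.apply ℝ ℂ v).comp (fderiv ℝ (fderiv ℝ f) w)) w := by
  have h : ContDiffAt ℝ 1 (fderiv ℝ f) w := hf.fderiv_right (by norm_num)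
  have h1 : HasFDerivAt (fderiv ℝ f) (fderiv ℝ (fderiv ℝ f) w) w :=
    (h.differentiableAt (by norm_num)).hasFDerivAt
  exact (ContinuousLinearMap.apply ℝ ℂ v).hasFDerivAt.comp w h1

private theorem db_db (hf : ContDiffAt ℝ 2 f w) (k l : Fin n) :
    db k (db l f) w =
      ((fderiv ℝ (fderiv ℝ f) w (Pi.single k 1) (Pi.single l 1) +
        Complex.I * fderiv ℝ (fderiv ℝ f) w (Pi.single k 1) (Pi.single l Complex.I)) +
      Complex.I * (fderiv ℝ (fderiv ℝ f) w (Pi.single k Complex.I) (Pi.single l 1) +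
        Complex.I * fderiv ℝ (fderiv ℝ f) w (Pi.single k Complex.I)
          (Pi.single l Complex.I))) / 4 := by
  have h1 := fd2 hf (Pi.single l 1)
  have h2 := fd2 hf (Pi.single l Complex.I)
  have h3 : HasFDerivAt (db l f) ((2 : ℂ)⁻¹ •
      ((ContinuousLinearMap.apply ℝ ℂ (Pi.single l (1 : ℂ) : Fin n → ℂ)).comp
          (fderiv ℝ (fderiv ℝ f) w) +
        Complex.I • (ContinuousLinearMap.apply ℝ ℂ (Pi.single l Complex.I : Fin n → ℂ)).comp
          (fderiv ℝ (fderiv ℝ f) w))) w := by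
    have h4 := (h1.add (h2.const_mul Complex.I)).const_mul ((2 : ℂ)⁻¹)
    refine h4.congr_of_eventuallyEq (Eventually.of_forall fun x => ?_)
    change (fderiv ℝ f x (Pi.single l 1) + Complex.I * fderiv ℝ f x (Pi.single l Complex.I)) / 2
      = _
    rw [div_eq_inv_mul]
    rfl
  have e : ∀ v : Fin n → ℂ, ((2 : ℂ)⁻¹ •
      ((ContinuousLinearMap.apply ℝ ℂ (Pi.single l (1 : ℂ) : Fin n → ℂ)).comp
          (fderiv ℝ (fderiv ℝ f) w) +
        Complex.I • (ContinuousLinearMap.apply ℝ ℂ (Pi.single l Complex.I : Fin n → ℂ)).comp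
          (fderiv ℝ (fderiv ℝ f) w))) v =
      (2 : ℂ)⁻¹ * (fderiv ℝ (fderiv ℝ f) w v (Pi.single l 1) +
        Complex.I * fderiv ℝ (fderiv ℝ f) w v (Pi.single l Complex.I)) := fun v => rfl
  have h5 : db k (db l f) w = (fderiv ℝ (db l f) w (Pi.single k 1) +
      Complex.I * fderiv ℝ (db l f) w (Pi.single k Complex.I)) / 2 := rfl
  rw [h5, h3.fderiv, e, e]
  ring

theorem db_comm (hf : ContDiffAt ℝ 2 f w) (k l : Fin n) :
    db k (db l f) w = db l (db k f) w := by
  have hs : IsSymmSndFDerivAt ℝ f w := hf.isSymmSndFDerivAt (by simp)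
  rw [db_db hf, db_db hf, hs.eq (Pi.single k 1) (Pi.single l 1),
    hs.eq (Pi.single k 1) (Pi.single l Complex.I), hs.eq (Pi.single k Complex.I) (Pi.single l 1),
    hs.eq (Pi.single k Complex.I) (Pi.single l Complex.I)]
  ring

end Pool.Agent.Work.MP_49847a_an
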