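import Pool.Agent.Work.MP_49847a_an.Cf.Piola

/-!
# Module DetZ: sections of the pairing

Proof.  (cf_det_zero) Apply `db m` to `∑_j s_j(x) (z_j - x_j) = 1` near `w` (`db_congr`, `db_sum`, `db_mul`, `db` of the holomorphic functions
`z_j - x_j` is zero: `db_eval` with `C (z j) - X j`, or `db_sub`): `∑_j (z_j - w_j) db m s_j w = 0` for every `m`, that is the nonzero row
vector `z - w` satisfies `(z - w) ᵥ* cfJ s w = 0`, so the determinant vanishes (`Matrix.exists_vecMul_eq_zero_iff`).
(cf_div_zero) `cf_piola` and `cf_det_zero`.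
(cfA_congr) `cfA` depends on the germ only (`db_congr`; `Filter.EventuallyEq.eq_of_nhds`).
(cfA_contDiffAt) a determinant is a polynomial in the entries (`Matrix.det_apply`), `db_contDiffAt`.
(cfA_smul) `db m (g s_j) = g db m s_j + s_j db m g`: column `m ≠ k` of the matrix for `g s` is `g (column m of cfJ s) + (db m g) s`, column `k` is `g s`.
If `g w = 0` both sides vanish (`n ≠ 0` since `k : Fin n`; column `k` is zero).  Otherwise adding multiples of column `k` to the others does not
change the determinant (`Matrix.det_eq_of_forall_col_eq_smul_add_const`), and then `det (g • M) = g^n det M` (`Matrix.det_smul`).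
-/

namespace Pool.Agent.Work.MP_49847a_an

open MvPolynomial Filter Topology MeasureTheory

variable {n : ℕ} {s t : (Fin n → ℂ) → Fin n → ℂ} {z w : Fin n → ℂ}

private theorem dz_diff_coord (j : Fin n) : DifferentiableAt ℝ (fun x : Fin n → ℂ => x j) w :=
  (ContinuousLinearMap.proj (R := ℝ) (φ := fun _ : Fin n => ℂ) j).differentiableAt

theorem cf_det_zero (hs : ∀ j, DifferentiableAt ℝ (fun x => s x j) w) (hzw : w ≠ z)
    (hp : ∀ᶠ x in 𝓝 w, ∑ j, s x j * (z j - x j) = 1) : (cfJ s w).det = 0 := by
  have hd : ∀ j, DifferentiableAt ℝ (fun x : Fin n → ℂ => z j - x j) w := fun j =>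
    (differentiableAt_const _).sub (dz_diff_coord j)
  have h0 : ∀ m j, db m (fun x : Fin n → ℂ => z j - x j) w = 0 := by
    intro m j
    rw [db_sub (differentiableAt_const _) (dz_diff_coord j), db_const, db_X, sub_zero]
  have key : ∀ m, ∑ j, (z j - w j) * db m (fun x => s x j) w = 0 := by
    intro m
    have h1 : db m (fun x => ∑ j, s x j * (z j - x j)) w = 0 := by
      rw [db_congr (g := fun _ => (1 : ℂ)) hp m, db_const]
    rw [db_sum Finset.univ (F := fun j x => s x j * (z j - x j)) (fun j _ => (hs j).mul (hd j))] at h1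
    rw [← h1]
    refine Finset.sum_congr rfl fun j _ => ?_
    rw [db_mul (hs j) (hd j), h0, mul_zero, zero_add, mul_comm]
  refine Matrix.exists_vecMul_eq_zero_iff.1 ⟨z - w, sub_ne_zero.2 hzw.symm, ?_⟩
  funext m
  exact key m

theorem cf_div_zero (hs : ∀ j, ContDiffAt ℝ 2 (fun x => s x j) w) (hzw : w ≠ z)
    (hp : ∀ᶠ x in 𝓝 w, ∑ j, s x j * (z j - x j) = 1) : ∑ k, db k (cfA s k) w = 0 := by
  rw [cf_piola hs, cf_det_zero (fun j => (hs j).differentiableAt (by norm_num)) hzw hp, mul_zero]

theorem cfA_congr (h : s =ᶠ[𝓝 w] t) (k : Fin n) : cfA s k w = cfA t k w := by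
  have h1 : cfJ s w = cfJ t w := by
    ext j m
    exact db_congr (h.fun_comp fun v => v j) m
  unfold cfA
  rw [h1, h.eq_of_nhds]

theorem cfA_contDiffAt (hs : ∀ j, ContDiffAt ℝ 2 (fun x => s x j) w) (k : Fin n) :
    ContDiffAt ℝ 1 (cfA s k) w := by
  have hent : ∀ i j, ContDiffAt ℝ 1 (fun x => ((cfJ s x).updateCol k (s x)) i j) w := by
    intro i j
    by_cases hj : j = k
    · subst hj
      simp only [Matrix.updateCol_self]
      exact (hs i).of_le (by norm_num)
    · simp only [Matrix.updateCol_ne hj]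
      exact db_contDiffAt (m := 1) (by
        have := hs i
        rwa [← one_add_one_eq_two] at this) j
  have h1 : cfA s k = fun x => ∑ σ : Equiv.Perm (Fin n), Equiv.Perm.sign σ •
      ∏ i, ((cfJ s x).updateCol k (s x)) (σ i) i := by
    funext x
    exact Matrix.det_apply _
  rw [h1]
  refine ContDiffAt.sum fun σ _ => ?_
  have h2 : ContDiffAt ℝ 1 (fun x => ∏ i, ((cfJ s x).updateCol k (s x)) (σ i) i) w :=
    contDiffAt_prod fun i _ => hent (σ i) i
  rcases Int.units_eq_one_or (Equiv.Perm.sign σ) with h3 | h3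
  · rw [h3]
    simpa using h2
  · rw [h3]
    simpa using h2.neg

theorem cfA_smul {g : (Fin n → ℂ) → ℂ} (hg : DifferentiableAt ℝ g w)
    (hs : ∀ j, DifferentiableAt ℝ (fun x => s x j) w) (k : Fin n) :
    cfA (fun x j => g x * s x j) k w = g w ^ n * cfA s k w := by
  have hM : ∀ j m, cfJ (fun x j => g x * s x j) w j m =
      g w * cfJ s w j m + db m g w * s w j := fun j m => db_mul hg (hs j) m
  unfold cfA
  by_cases h0 : g w = 0
  · have hn : n ≠ 0 := fun h => by
      subst h
      exact k.elim0
    rw [h0, zero_pow hn, zero_mul]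
    refine Matrix.det_eq_zero_of_column_eq_zero k fun i => ?_
    rw [Matrix.updateCol_self]
    simp [h0]
  · have hB : g w ^ n * ((cfJ s w).updateCol k (s w)).det =
        (g w • (cfJ s w).updateCol k (s w)).det := by
      rw [Matrix.det_smul, Fintype.card_fin]
    rw [hB, ← Matrix.det_transpose, ← Matrix.det_transpose (g w • _)]
    refine Matrix.det_eq_of_forall_row_eq_smul_add_const
      (fun m => if m = k then 0 else db m g w / g w) k (if_pos rfl) ?_
    intro m j
    simp only [Matrix.transpose_apply, Matrix.smul_apply, smul_eq_mul, Matrix.updateCol_self]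
    by_cases hm : m = k
    · subst hm
      simp
    · rw [if_neg hm, Matrix.updateCol_ne hm, Matrix.updateCol_ne hm, hM]
      field_simp

end Pool.Agent.Work.MP_49847a_an
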