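import Pool.Agent.Work.MP_49847a_an.Cf.DbB

/-!
# Module Frk: the kernel is of finite rank in `z`

Proof.  Say that `F : (Fin n → ℂ) → (Fin n → ℂ) → ℂ` is of finite rank if there are `N'`, polynomials `α'_i` and smooth functions `γ_i`
(`∀ m : ℕ, ContDiff ℝ m (γ i)`) with `F z w = ∑_i α'_i(z) γ_i(w)`.  Sums, products, constants and hence finite sums, finite products and
determinants (`Matrix.det_apply`) of functions of finite rank are of finite rank; and if `F z w = ∑_i α_i(z) β_i(w)` then `(z, w) ↦ db m (F z) w = ∑_i α_i(z) db m β_i w` is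
(`db_sum`, `db_mul`, `db_const`, `db_contDiff`).  So each `(z, w) ↦ cfA (g z) k w` is of finite rank; to have the same `α'` for all `k` append the
families (zero coefficients).
-/

namespace Pool.Agent.Work.MP_49847a_an

open MvPolynomial Filter Topology MeasureTheory

variable {n : ℕ}

private def FrkR (F : (Fin n → ℂ) → (Fin n → ℂ) → ℂ) : Prop :=
  ∃ (ι : Type) (_ : Fintype ι) (α : ι → MvPolynomial (Fin n) ℂ) (γ : ι → (Fin n → ℂ) → ℂ),
    (∀ i, Continuous (γ i)) ∧ ∀ z w, F z w = ∑ i, eval z (α i) * γ i w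

private theorem frkConst (c : ℂ) : FrkR (n := n) (fun _ _ => c) :=
  ⟨Unit, inferInstance, fun _ => C c, fun _ _ => 1, fun _ => continuous_const,
    fun z w => by simp⟩

private theorem frkAdd {F G : (Fin n → ℂ) → (Fin n → ℂ) → ℂ} (hF : FrkR F) (hG : FrkR G) :
    FrkR (fun z w => F z w + G z w) := by
  obtain ⟨ι, _, α, γ, h1, h2⟩ := hF
  obtain ⟨κ, _, α', γ', h1', h2'⟩ := hG
  refine ⟨ι ⊕ κ, inferInstance, Sum.elim α α', Sum.elim γ γ', ?_, fun z w => ?_⟩
  · rintro (i | i)
    · exact h1 i
    · exact h1' i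
  · dsimp only
    rw [Fintype.sum_sum_type, h2, h2']
    rfl

private theorem frkMul {F G : (Fin n → ℂ) → (Fin n → ℂ) → ℂ} (hF : FrkR F) (hG : FrkR G) :
    FrkR (fun z w => F z w * G z w) := by
  obtain ⟨ι, _, α, γ, h1, h2⟩ := hF
  obtain ⟨κ, _, α', γ', h1', h2'⟩ := hG
  refine ⟨ι × κ, inferInstance, fun p => α p.1 * α' p.2, fun p w => γ p.1 w * γ' p.2 w,
    fun p => (h1 _).mul (h1' _), fun z w => ?_⟩
  dsimp only
  rw [h2, h2', Finset.sum_mul_sum, Fintype.sum_prod_type]
  refine Finset.sum_congr rfl fun i _ => Finset.sum_congr rfl fun j _ => ?_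
  rw [map_mul]
  ring

private theorem frkSum {κ : Type*} (s : Finset κ) {F : κ → (Fin n → ℂ) → (Fin n → ℂ) → ℂ}
    (h : ∀ a ∈ s, FrkR (F a)) : FrkR (fun z w => ∑ a ∈ s, F a z w) := by
  classical
  induction s using Finset.induction_on with
  | empty =>
    simp only [Finset.sum_empty]
    exact frkConst 0
  | insert a s ha ih =>
    simp only [Finset.sum_insert ha]
    exact frkAdd (h a (Finset.mem_insert_self a s))
      (ih fun b hb => h b (Finset.mem_insert_of_mem hb))

private theorem frkProd {κ : Type*} (s : Finset κ) {F : κ → (Fin n → ℂ) → (Fin n → ℂ) → ℂ}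
    (h : ∀ a ∈ s, FrkR (F a)) : FrkR (fun z w => ∏ a ∈ s, F a z w) := by
  classical
  induction s using Finset.induction_on with
  | empty =>
    simp only [Finset.prod_empty]
    exact frkConst 1
  | insert a s ha ih =>
    simp only [Finset.prod_insert ha]
    exact frkMul (h a (Finset.mem_insert_self a s))
      (ih fun b hb => h b (Finset.mem_insert_of_mem hb))

private theorem frkDet {F : Fin n → Fin n → (Fin n → ℂ) → (Fin n → ℂ) → ℂ}
    (h : ∀ i j, FrkR (F i j)) : FrkR (fun z w => (Matrix.of fun i j => F i j z w).det) := by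
  simp only [Matrix.det_apply', Matrix.of_apply]
  refine frkSum _ fun σ _ => frkMul (frkConst _) (frkProd _ fun i _ => h _ _)

private theorem frkEntry {N : ℕ} (α : Fin N → MvPolynomial (Fin n) ℂ)
    (β : Fin N → Fin n → (Fin n → ℂ) → ℂ) (hβ : ∀ i j, ∀ m : ℕ, ContDiff ℝ m (β i j))
    (j m : Fin n) :
    FrkR (fun z w => db m (fun x => ∑ i, eval z (α i) * β i j x) w) := by
  refine ⟨Fin N, inferInstance, α, fun i => db m (β i j), fun i => ?_, fun z w => ?_⟩
  · have h1 : ContDiff ℝ ((0 : ℕ) + 1 : ℕ) (β i j) := hβ i j _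
    have h2 : ContDiff ℝ (0 : ℕ) (db m (β i j)) := db_contDiff (by exact_mod_cast h1) m
    exact h2.continuous
  · have hd : ∀ i, DifferentiableAt ℝ (β i j) w := fun i =>
      ((hβ i j 1).differentiable (by simp)) w
    dsimp only
    rw [db_sum Finset.univ (fun i _ => (hd i).const_mul _)]
    refine Finset.sum_congr rfl fun i _ => ?_
    rw [db_mul (differentiableAt_const _) (hd i), db_const, zero_mul, add_zero]

private theorem frkCf {N : ℕ} (α : Fin N → MvPolynomial (Fin n) ℂ)
    (β : Fin N → Fin n → (Fin n → ℂ) → ℂ) (hβ : ∀ i j, ∀ m : ℕ, ContDiff ℝ m (β i j))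
    (k : Fin n) :
    FrkR (fun z w => cfA (fun x j => ∑ i, eval z (α i) * β i j x) k w) := by
  have h0 : (fun z w => cfA (fun x j => ∑ i, eval z (α i) * β i j x) k w) =
      fun z w => (Matrix.of fun j m => if m = k then ∑ i, eval z (α i) * β i j w else
        db m (fun x => ∑ i, eval z (α i) * β i j x) w).det := by
    funext z w
    unfold cfA
    congr 1
    ext j m
    rw [Matrix.updateCol_apply]
    rfl
  rw [h0]
  refine frkDet (F := fun j m z w => if m = k then ∑ i, eval z (α i) * β i j w else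
        db m (fun x => ∑ i, eval z (α i) * β i j x) w) fun j m => ?_
  by_cases hm : m = k
  · simp only [hm, if_true]
    exact ⟨Fin N, inferInstance, α, fun i => β i j, fun i => (hβ i j 0).continuous,
      fun z w => rfl⟩
  · simp only [hm, if_false]
    exact frkEntry α β hβ j m

theorem cf_frk {N : ℕ} (α : Fin N → MvPolynomial (Fin n) ℂ)
    (β : Fin N → Fin n → (Fin n → ℂ) → ℂ) (hβ : ∀ i j, ∀ m : ℕ, ContDiff ℝ m (β i j)) :
    ∃ (N' : ℕ) (α' : Fin N' → MvPolynomial (Fin n) ℂ) (γ : Fin N' → Fin n → (Fin n → ℂ) → ℂ),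
      (∀ i k, Continuous (γ i k)) ∧ ∀ z w k,
      cfA (fun x j => ∑ i, eval z (α i) * β i j x) k w = ∑ i, eval z (α' i) * γ i k w := by
  choose ι hι a g hg hF using fun k => frkCf α β hβ k
  let e := Fintype.equivFin (Σ k, ι k)
  refine ⟨Fintype.card (Σ k, ι k), fun i => a (e.symm i).1 (e.symm i).2,
    fun i k w => if (e.symm i).1 = k then g (e.symm i).1 (e.symm i).2 w else 0, ?_, ?_⟩
  · intro i k
    by_cases h : (e.symm i).1 = k
    · simp only [h, if_true]
      exact hg _ _
    · simp only [h, if_false]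
      exact continuous_const
  · intro z w k
    have h1 : cfA (fun x j => ∑ i, eval z (α i) * β i j x) k w =
        ∑ i, eval z (a k i) * g k i w := hF k z w
    rw [h1, e.symm.sum_comp (fun p : (Σ k, ι k) => eval z (a p.1 p.2) *
      (if p.1 = k then g p.1 p.2 w else 0)), Fintype.sum_sigma]
    rw [Finset.sum_eq_single k]
    · simp
    · intro b _ hb
      simp [hb]
    · intro h
      exact absurd (Finset.mem_univ k) h

end Pool.Agent.Work.MP_49847a_an
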