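import Pool.Agent.Work.MP_49847a_an.Cf.DbB

/-!
# Module Piola: the divergence identity

Proof.  (db_det) For a matrix valued function `M` with entries differentiable at `w`,
`db k (det M) w = ∑_m det ((M w).updateCol m (fun j => db k (M j m) w))`: `Matrix.det_apply` writes the determinant as a sum over
permutations of products; product rule (`db_sum`, and for products induction on the finset with `db_mul`, or `fderiv` of finite products),
then exchange the sums and use `Matrix.det_apply` backwards, `Finset.prod_update_of_mem`-type lemma.
(cf_piola) Apply it to `M = (cfJ s x).updateCol k (s x)`.  The entries of column `m ≠ k` are `db m (s_j)`, those of column `k` are `s_j`.  Term `m = k`: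
column `k` is replaced by `db k s_j`, which is column `k` of `cfJ s w`: the matrix is `cfJ s w`.  Terms `m ≠ k`: `T(k, m) = det` of `cfJ s w` with column `k`
replaced by `s w` and column `m` replaced by `(db k (db m s_j) w)_j`.  `T(m, k)` has column `m` replaced by `s w` and column `k` by
`(db m (db k s_j) w)_j = (db k (db m s_j) w)_j` (`db_comm`), which is `T(k, m)` with the columns `k`, `m` exchanged: `T(m, k) = - T(k, m)`
(`Matrix.det_permute'`, or `det_updateCol` lemmas, alternating).  So `∑_k ∑_{m ≠ k} T(k, m) = 0` and the sum is `n det (cfJ s w)`.
Differentiability: `db_contDiffAt`.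
-/

namespace Pool.Agent.Work.MP_49847a_an

open MvPolynomial Filter Topology MeasureTheory

variable {n : ℕ} {s : (Fin n → ℂ) → Fin n → ℂ} {w : Fin n → ℂ}

/-- the determinant as a continuous real multilinear map of the rows -/
private noncomputable def detRC (n : ℕ) :
    ContinuousMultilinearMap ℝ (fun _ : Fin n => (Fin n → ℂ)) ℂ :=
  { (Matrix.detRowAlternating (n := Fin n) (R := ℂ)).toMultilinearMap.restrictScalars ℝ with
    cont := by
      change Continuous (fun M : Matrix (Fin n) (Fin n) ℂ => M.det)
      exact continuous_id.matrix_det }

private theorem detRC_apply {n : ℕ} (C : Fin n → Fin n → ℂ) :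
    detRC n C = (Matrix.detRowAlternating (n := Fin n) (R := ℂ)) C := rfl

private theorem det_eq_detRow {n : ℕ} (M : Matrix (Fin n) (Fin n) ℂ) :
    M.det = (Matrix.detRowAlternating (n := Fin n) (R := ℂ)) (fun m j => M j m) := by
  rw [← Matrix.det_transpose]
  rfl

private theorem det_updateCol_eq {n : ℕ} (M : Matrix (Fin n) (Fin n) ℂ) (m : Fin n)
    (c : Fin n → ℂ) :
    (M.updateCol m c).det =
      (Matrix.detRowAlternating (n := Fin n) (R := ℂ)) (Function.update (fun m j => M j m) m c) := by
  rw [det_eq_detRow]
  congr 1
  funext m' j
  rw [Matrix.updateCol_apply]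
  by_cases h : m' = m
  · subst h
    rw [Function.update_self, if_pos rfl]
  · rw [Function.update_of_ne h, if_neg h]

/-- exchanging two rows -/
private theorem detRow_upd_swap {m : ℕ} (J : Fin m → Fin m → ℂ) {i j : Fin m} (hij : i ≠ j)
    (a b : Fin m → ℂ) :
    (Matrix.detRowAlternating (n := Fin m) (R := ℂ))
        (Function.update (Function.update J j a) i b) =
      - (Matrix.detRowAlternating (n := Fin m) (R := ℂ))
        (Function.update (Function.update J j b) i a) := by
  have h := (Matrix.detRowAlternating (n := Fin m) (R := ℂ)).map_swap
    (Function.update (Function.update J j b) i a) hij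
  have h2 : (Function.update (Function.update J j b) i a) ∘ (Equiv.swap i j) =
      Function.update (Function.update J j a) i b := by
    funext r
    simp only [Function.comp]
    by_cases hi : r = i
    · subst hi
      rw [Equiv.swap_apply_left, Function.update_of_ne hij.symm, Function.update_self,
        Function.update_self]
    · by_cases hj : r = j
      · subst hj
        rw [Equiv.swap_apply_right, Function.update_self, Function.update_of_ne hi,
          Function.update_self]
      · rw [Equiv.swap_apply_of_ne_of_ne hi hj, Function.update_of_ne hi, Function.update_of_ne hj,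
          Function.update_of_ne hi, Function.update_of_ne hj]
  rw [h2] at h
  exact h

theorem db_det {M : (Fin n → ℂ) → Matrix (Fin n) (Fin n) ℂ}
    (hM : ∀ i j, DifferentiableAt ℝ (fun x => M x i j) w) (k : Fin n) :
    db k (fun x => (M x).det) w =
      ∑ m, ((M w).updateCol m (fun j => db k (fun x => M x j m) w)).det := by
  classical
  set D := (Matrix.detRowAlternating (n := Fin n) (R := ℂ)) with hD
  have hC : ∀ m, HasFDerivAt (fun x => (fun j => M x j m : Fin n → ℂ))
      (ContinuousLinearMap.pi (fun j => fderiv ℝ (fun x => M x j m) w)) w := by
    intro m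
    rw [hasFDerivAt_pi]
    intro j
    exact (hM j m).hasFDerivAt
  have h := HasFDerivAt.multilinear_comp (detRC n) hC
  have h' : HasFDerivAt (fun x => (M x).det)
      (∑ m, ((detRC n).toContinuousLinearMap (fun m' => (fun j => M w j m' : Fin n → ℂ)) m).comp
        (ContinuousLinearMap.pi (fun j => fderiv ℝ (fun x => M x j m) w))) w := by
    refine h.congr_of_eventuallyEq (Filter.Eventually.of_forall fun x => ?_)
    change (M x).det = detRC n (fun m j => M x j m)
    rw [detRC_apply, det_eq_detRow]
  have hval : ∀ v, fderiv ℝ (fun x => (M x).det) w v =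
      ∑ m, D (Function.update (fun m' j => M w j m') m
        (fun j => fderiv ℝ (fun x => M x j m) w v)) := by
    intro v
    rw [h'.fderiv, ContinuousLinearMap.sum_apply]
    refine Finset.sum_congr rfl fun m _ => ?_
    rfl
  unfold db
  rw [hval, hval, Finset.mul_sum, ← Finset.sum_add_distrib, Finset.sum_div]
  refine Finset.sum_congr rfl fun m _ => ?_
  rw [det_updateCol_eq]
  have e1 : (fun j => (fderiv ℝ (fun x => M x j m) w (Pi.single k 1) +
      Complex.I * fderiv ℝ (fun x => M x j m) w (Pi.single k Complex.I)) / 2) =
      (1 / 2 : ℂ) • ((fun j => fderiv ℝ (fun x => M x j m) w (Pi.single k 1)) +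
        Complex.I • (fun j => fderiv ℝ (fun x => M x j m) w (Pi.single k Complex.I))) := by
    funext j
    simp only [Pi.smul_apply, Pi.add_apply, smul_eq_mul]
    ring
  rw [e1]
  have e2 := D.map_update_smul (fun m' j => M w j m') m (1 / 2 : ℂ)
    ((fun j => fderiv ℝ (fun x => M x j m) w (Pi.single k 1)) +
        Complex.I • (fun j => fderiv ℝ (fun x => M x j m) w (Pi.single k Complex.I)))
  have e3 := D.map_update_add (fun m' j => M w j m') m
    (fun j => fderiv ℝ (fun x => M x j m) w (Pi.single k 1))
    (Complex.I • (fun j => fderiv ℝ (fun x => M x j m) w (Pi.single k Complex.I)))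
  have e4 := D.map_update_smul (fun m' j => M w j m') m Complex.I
    (fun j => fderiv ℝ (fun x => M x j m) w (Pi.single k Complex.I))
  rw [e2, e3, e4]
  simp only [smul_eq_mul]
  ring

theorem cf_piola (hs : ∀ j, ContDiffAt ℝ 2 (fun x => s x j) w) :
    ∑ k, db k (cfA s k) w = (n : ℂ) * (cfJ s w).det := by
  classical
  set D := (Matrix.detRowAlternating (n := Fin n) (R := ℂ)) with hD
  set C : Fin n → Fin n → ℂ := fun m j => cfJ s w j m with hCdef
  have hsd : ∀ j, DifferentiableAt ℝ (fun x => s x j) w := fun j =>
    (hs j).differentiableAt (by norm_num)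
  have hdd : ∀ j m, DifferentiableAt ℝ (fun x => db m (fun y => s y j) x) w := by
    intro j m
    have h1 : ContDiffAt ℝ ((1 : ℕ) : WithTop ℕ∞) (db m (fun y => s y j)) w :=
      db_contDiffAt (m := 1) (by
        have := hs j
        norm_num
        exact this) m
    exact h1.differentiableAt (by norm_num)
  set T : Fin n → Fin n → ℂ := fun k m =>
    D (Function.update (Function.update C k (s w)) m
      (fun j => db k (db m (fun x => s x j)) w)) with hT
  have hkey : ∀ k, db k (cfA s k) w =
      ∑ m, (if m = k then (cfJ s w).det else T k m) := by
    intro k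
    have h1 := db_det (M := fun x => (cfJ s x).updateCol k (s x)) (w := w) (by
      intro i j
      by_cases hjk : j = k
      · subst hjk
        simp only [Matrix.updateCol_self]
        exact hsd i
      · simp only [Matrix.updateCol_ne hjk]
        exact hdd i j) k
    have h2 : db k (cfA s k) w = db k (fun x => ((cfJ s x).updateCol k (s x)).det) w := rfl
    rw [h2, h1]
    refine Finset.sum_congr rfl fun m _ => ?_
    rw [det_updateCol_eq]
    have hcol : (fun m' j => ((cfJ s w).updateCol k (s w)) j m') =
        Function.update C k (s w) := by
      funext m' j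
      rw [Matrix.updateCol_apply]
      by_cases h : m' = k
      · subst h
        rw [Function.update_self, if_pos rfl]
      · rw [Function.update_of_ne h, if_neg h]
    rw [hcol]
    by_cases hmk : m = k
    · subst hmk
      rw [if_pos rfl]
      simp only [Matrix.updateCol_self]
      rw [Function.update_idem, det_eq_detRow]
      congr 1
      funext m' j
      by_cases h : m' = m
      · subst h
        rw [Function.update_self]
        rfl
      · rw [Function.update_of_ne h]
    · rw [if_neg hmk]
      simp only [Matrix.updateCol_ne hmk]
      rfl
  have hanti : ∀ k m, k ≠ m → T m k = - T k m := by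
    intro k m hkm
    have e1 : (fun j => db m (db k (fun x => s x j)) w) =
        (fun j => db k (db m (fun x => s x j)) w) := by
      funext j
      exact db_comm (hs j) m k
    have e2 : T k m = D (Function.update (Function.update C m
        (fun j => db k (db m (fun x => s x j)) w)) k (s w)) := by
      rw [hT]
      change D _ = _
      rw [Function.update_comm hkm]
    have e3 : T m k = D (Function.update (Function.update C m (s w)) k
        (fun j => db k (db m (fun x => s x j)) w)) := by
      rw [hT]
      change D _ = _
      rw [e1]
    rw [e2, e3]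
    exact detRow_upd_swap C hkm _ _
  have hsplit : ∀ k, ∑ m, (if m = k then (cfJ s w).det else T k m) =
      (cfJ s w).det + ∑ m, (if m = k then 0 else T k m) := by
    intro k
    have : ∀ m, (if m = k then (cfJ s w).det else T k m) =
        (if m = k then (cfJ s w).det else 0) + (if m = k then 0 else T k m) := by
      intro m
      split_ifs <;> simp
    rw [Finset.sum_congr rfl (fun m _ => this m), Finset.sum_add_distrib]
    simp
  rw [Finset.sum_congr rfl (fun k _ => (hkey k).trans (hsplit k)), Finset.sum_add_distrib]
  have hzero : ∑ k, ∑ m, (if m = k then 0 else T k m) = 0 := by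
    have h1 : ∑ k, ∑ m, (if m = k then (0 : ℂ) else T k m) =
        - ∑ k, ∑ m, (if m = k then (0 : ℂ) else T k m) := by
      conv_lhs => rw [Finset.sum_comm]
      rw [← Finset.sum_neg_distrib]
      refine Finset.sum_congr rfl fun k _ => ?_
      rw [← Finset.sum_neg_distrib]
      refine Finset.sum_congr rfl fun m _ => ?_
      by_cases h : m = k
      · subst h
        simp
      · rw [if_neg h, if_neg (Ne.symm h), hanti k m (Ne.symm h)]
    have h2 : (2 : ℂ) * ∑ k, ∑ m, (if m = k then (0 : ℂ) else T k m) = 0 := by
      linear_combination h1
    exact (mul_eq_zero.mp h2).resolve_left two_ne_zero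
  rw [hzero, add_zero, Finset.sum_const, Finset.card_univ, Fintype.card_fin, nsmul_eq_mul]

end Pool.Agent.Work.MP_49847a_an
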