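import Pool.Agent.Work.MP_49847a_an.Cp.Hull3
import Pool.Agent.Work.MP_49847a_an.Sg.Tay
import Pool.Agent.Work.MP_49847a_an.Sg.Kc
import Pool.Agent.Work.MP_49847a_an.Sg.LevN
import Pool.Agent.Work.MP_49847a_an.Sg.HullA

/-!
# Module Shl: the shell

Proof.  Let `K = hull (X2 P Q)`: compact (closed by definition; bounded since the coordinate polynomials are bounded on the compact set `X2 P Q`; `X2_compact3`, and
see the lemmas on compactness of hulls in Rat, Sg).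
(1) There is `c₁ > 0` with `c₁ < r2 a` for all `a ∈ K` with `r2 a > 0`: otherwise there are `a_j ∈ K` with `0 < r2 a_j → 0`, a subsequence converges to `a ∈ K`
with `r2 a = 0`, and `Inn2` at `a` gives `r2 a_j ≤ 0` for large `j`, contradiction.
(2) Suppose that for every `c > 0` the second statement fails: there are `z_j ∈ K`, `nn w_j ≤ R`, `0 < r2 w_j → 0`, `R2 z_j w_j = r2 w_j`.
Pass to convergent subsequences `z_j → z₀ ∈ K`, `w_j → w₀` (`{nn ≤ R}` is compact): `r2 w₀ = 0`, `R2 z₀ w₀ = 0`, so `z₀ = w₀ =: x ∈ X2` by `Sep2`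
(`X2 ⊆ K`, `subset_hull`).  By `Inn2` at `x`: `r2 z_j ≤ 0` for large `j`, so `z_j ≠ w_j`.
With `D2 w z = r2 z + r2 w - 2 Re R2 z w`: `D2 = r2 z_j + r2 w_j - 2 r2 w_j = r2 z_j - r2 w_j < 0`.  By `tay2` at the base point `w_j`:
`‖dr2 w_j (z_j - w_j)‖ ≤ M nn (z_j - w_j)` (since `R2 z_j w_j - r2 w_j = 0`), and `lev2 w_j (z_j - w_j) ≤ D2 + M nn^(3/2) ≤ M (nn (z_j - w_j))^(3/2)`.
Divide by `‖z_j - w_j‖` (the square root of `nn`): vectors `v_j` with `nn v_j = 1`, a subsequence converges to `v` with `nn v = 1`, `dr2 x v = 0`, `lev2 x v ≤ 0`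
(continuity and homogeneity of `dr2`, `lev2`, see the proofs in Sg/NecH, Sg/Near1), contradiction to `Levi2`.
-/

namespace Pool.Agent.Work.MP_49847a_an

open MvPolynomial Filter Topology MeasureTheory

variable {n k l : ℕ} {P : Fin k → MvPolynomial (Fin n) ℂ} {Q : Fin l → MvPolynomial (Fin n) ℂ}

private theorem shl_tend {ι : Type*} {f : Filter ι} {u : ι → Fin n → ℂ} {x : Fin n → ℂ}
    (h : Tendsto u f (𝓝 x)) : Tendsto (fun i => nn (u i - x)) f (𝓝 0) := by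
  have h1 : Tendsto (fun i => nn (u i - x)) f (𝓝 (nn (x - x))) :=
    (nn_continuous.tendsto _).comp (h.sub_const x)
  rwa [sub_self, nn_eq_zero.2 rfl] at h1

private theorem shl_one (hP : Pos2 P Q) (h3 : Inn2 P Q) :
    ∃ c : ℝ, 0 < c ∧ ∀ a ∈ hull (X2 P Q), 0 < r2 P Q a → c < r2 P Q a := by
  by_contra hcon
  push Not at hcon
  have hK := hull_compact (X2_compact3 hP)
  choose a ha1 ha2 ha3 using fun m : ℕ => hcon (1 / ((m : ℝ) + 1)) (by positivity)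
  obtain ⟨x, hx, φ, hφ, hlim⟩ := hK.tendsto_subseq ha1
  have hr : Tendsto (fun m => r2 P Q (a (φ m))) atTop (𝓝 (r2 P Q x)) :=
    ((r2_continuous P Q).tendsto _).comp hlim
  have hz : Tendsto (fun m => 1 / (((φ m : ℕ) : ℝ) + 1)) atTop (𝓝 0) :=
    tendsto_one_div_add_atTop_nhds_zero_nat.comp hφ.tendsto_atTop
  have hx0 : r2 P Q x = 0 := by
    refine tendsto_nhds_unique hr ?_
    exact squeeze_zero (fun m => (ha2 _).le) (fun m => ha3 _) hz
  obtain ⟨ε, hε, hin⟩ := h3 x hx0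
  have h4 := (shl_tend hlim).eventually (gt_mem_nhds hε)
  obtain ⟨m, hm⟩ := h4.exists
  have h5 := hin _ (ha1 (φ m)) hm
  exact absurd (ha2 (φ m)) (not_lt.2 h5)

private theorem shl_R2 {u v : ℕ → Fin n → ℂ} {x y : Fin n → ℂ} (hu : Tendsto u atTop (𝓝 x))
    (hv : Tendsto v atTop (𝓝 y)) :
    Tendsto (fun m => R2 P Q (u m) (v m)) atTop (𝓝 (R2 P Q x y)) := by
  have h1 : Tendsto (fun m => (u m, v m)) atTop (𝓝 (x, y)) := hu.prodMk_nhds hv
  have h2 : Tendsto (fun q : (Fin n → ℂ) × (Fin n → ℂ) => R2 P Q q.1 q.2) (𝓝 (x, y))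
      (𝓝 (R2 P Q x y)) := (R2_continuous P Q).tendsto (x, y)
  have h3 := h2.comp h1
  exact h3

private theorem shl_two (hP : Pos2 P Q) (h1 : Sep2 P Q) (h2 : Levi2 P Q) (h3 : Inn2 P Q)
    (R : ℝ) : ∃ c : ℝ, 0 < c ∧ ∀ z ∈ hull (X2 P Q), ∀ w, nn w ≤ R → 0 < r2 P Q w →
      r2 P Q w ≤ c → R2 P Q z w ≠ ((r2 P Q w : ℝ) : ℂ) := by
  by_contra hcon
  push Not at hcon
  have hX := X2_compact3 hP
  have hK := hull_compact hX
  choose z hz w hw1 hw2 hw3 hw4 using fun m : ℕ => hcon (1 / ((m : ℝ) + 1)) (by positivity)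
  obtain ⟨⟨x, y⟩, ⟨hx, hy⟩, φ, hφ, hlim⟩ := (hK.prod (nn_cpt (n := n) R)).tendsto_subseq
    (x := fun m => (z m, w m)) (fun m => ⟨hz m, hw1 m⟩)
  have hlz : Tendsto (fun m => z (φ m)) atTop (𝓝 x) := (continuous_fst.tendsto _).comp hlim
  have hlw : Tendsto (fun m => w (φ m)) atTop (𝓝 y) := (continuous_snd.tendsto _).comp hlim
  have hr : Tendsto (fun m => r2 P Q (w (φ m))) atTop (𝓝 (r2 P Q y)) :=
    ((r2_continuous P Q).tendsto _).comp hlw
  have hzz : Tendsto (fun m => 1 / (((φ m : ℕ) : ℝ) + 1)) atTop (𝓝 0) :=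
    tendsto_one_div_add_atTop_nhds_zero_nat.comp hφ.tendsto_atTop
  have hy0 : r2 P Q y = 0 := by
    refine tendsto_nhds_unique hr ?_
    exact squeeze_zero (fun m => (hw2 _).le) (fun m => hw3 _) hzz
  have hRl : Tendsto (fun m => R2 P Q (z (φ m)) (w (φ m))) atTop (𝓝 (R2 P Q x y)) :=
    shl_R2 hlz hlw
  have hR0 : R2 P Q x y = 0 := by
    refine tendsto_nhds_unique hRl ?_
    have h4 : Tendsto (fun m => ((r2 P Q (w (φ m)) : ℝ) : ℂ)) atTop (𝓝 ((r2 P Q y : ℝ) : ℂ)) :=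
      (Complex.continuous_ofReal.tendsto _).comp hr
    rw [hy0, Complex.ofReal_zero] at h4
    exact h4.congr fun m => (hw4 _).symm
  have hyK : y ∈ hull (X2 P Q) := fun p c hp => hp y hy0
  have hxy : x = y := h1 x hx y hyK hR0
  subst hxy
  obtain ⟨ε, hε, hin⟩ := h3 x hy0
  obtain ⟨δ, c, M, hδ, hc, hM, hlev⟩ := levN hX h2
  obtain ⟨R₁, hR₁0, hR₁⟩ := nn_bdd hK
  obtain ⟨M', hM', htay⟩ := tay2 P Q (max R R₁)
  have hY : Tendsto (fun m => nn (z (φ m) - w (φ m))) atTop (𝓝 0) := by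
    have h4 : Tendsto (fun m => nn (z (φ m) - w (φ m))) atTop (𝓝 (nn (x - x))) :=
      (nn_continuous.tendsto _).comp (hlz.sub hlw)
    rwa [sub_self, nn_eq_zero.2 rfl] at h4
  have hYs : Tendsto (fun m => M' * Real.sqrt (nn (z (φ m) - w (φ m))) +
      M * M' ^ 2 * nn (z (φ m) - w (φ m))) atTop (𝓝 0) := by
    have h4 := ((Real.continuous_sqrt.tendsto 0).comp hY).const_mul M'
    have h5 := hY.const_mul (M * M' ^ 2)
    have h6 := h4.add h5
    rw [Real.sqrt_zero, mul_zero, mul_zero, add_zero] at h6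
    exact h6
  obtain ⟨m, hm1, hm2, hm3⟩ := (((shl_tend hlz).eventually (gt_mem_nhds hε)).and
    (((shl_tend hlw).eventually (gt_mem_nhds hδ)).and (hYs.eventually (gt_mem_nhds hc)))).exists
  set a := z (φ m) with ha
  set b := w (φ m) with hb
  have hra : r2 P Q a ≤ 0 := hin a (hz _) hm1
  have hrb : 0 < r2 P Q b := hw2 _
  have hab : R2 P Q a b = ((r2 P Q b : ℝ) : ℂ) := hw4 _
  have hna : nn a ≤ max R R₁ := (hR₁ a (hz _)).le.trans (le_max_right _ _)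
  have hnb : nn b ≤ max R R₁ := (hw1 _).trans (le_max_left _ _)
  obtain ⟨t1, -, t3, -, -, -, -⟩ := htay b a hnb hna
  have hY0 : 0 < nn (a - b) := by
    refine lt_of_le_of_ne (nn_nonneg _) fun h => ?_
    have h4 := nn_eq_zero.1 h.symm
    rw [sub_eq_zero] at h4
    rw [h4] at hra
    linarith
  have hdr : ‖dr2 P Q b (a - b)‖ ≤ M' * nn (a - b) := by
    rw [hab, sub_self, zero_sub, norm_neg] at t1
    exact t1
  have hD : D2 P Q b a < 0 := by
    have h4 : (R2 P Q b a).re = r2 P Q b := by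
      rw [← R2_conj P Q a b, hab, Complex.conj_ofReal, Complex.ofReal_re]
    unfold D2
    rw [h4]
    linarith
  have h5 := hlev x hy0 b hm2 (a - b)
  have h6 : ‖dr2 P Q b (a - b)‖ ^ 2 ≤ (M' * nn (a - b)) ^ 2 :=
    pow_le_pow_left₀ (norm_nonneg _) hdr 2
  have h7 : M * ‖dr2 P Q b (a - b)‖ ^ 2 ≤ M * (M' * nn (a - b)) ^ 2 :=
    mul_le_mul_of_nonneg_left h6 hM
  have h8 : lev2 P Q b (a - b) ≤ D2 P Q b a + M' * (nn (a - b) * Real.sqrt (nn (a - b))) := by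
    have := (abs_le.1 t3).1
    linarith
  have h9 : c * nn (a - b) < (M' * Real.sqrt (nn (a - b)) + M * M' ^ 2 * nn (a - b)) *
      nn (a - b) := by
    calc c * nn (a - b) ≤ lev2 P Q b (a - b) + M * ‖dr2 P Q b (a - b)‖ ^ 2 := h5
      _ < M' * (nn (a - b) * Real.sqrt (nn (a - b))) + M * (M' * nn (a - b)) ^ 2 := by linarith
      _ = _ := by ring
  exact absurd (lt_of_mul_lt_mul_right h9 hY0.le) (not_lt.2 hm3.le)

theorem cf_shell (hP : Pos2 P Q) (h1 : Sep2 P Q) (h2 : Levi2 P Q) (h3 : Inn2 P Q) (R : ℝ) :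
    ∃ c : ℝ, 0 < c ∧ (∀ a ∈ hull (X2 P Q), 0 < r2 P Q a → c < r2 P Q a) ∧
      ∀ z ∈ hull (X2 P Q), ∀ w, nn w ≤ R → 0 < r2 P Q w → r2 P Q w ≤ c →
        R2 P Q z w ≠ ((r2 P Q w : ℝ) : ℂ) := by
  obtain ⟨c₁, hc₁, h₁⟩ := shl_one hP h3
  obtain ⟨c₂, hc₂, h₂⟩ := shl_two hP h1 h2 h3 R
  refine ⟨min c₁ c₂, lt_min hc₁ hc₂, fun a ha hra => (min_le_left _ _).trans_lt (h₁ a ha hra),
    fun z hz w hw hw0 hwc => h₂ z hz w hw hw0 (hwc.trans (min_le_right _ _))⟩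

end Pool.Agent.Work.MP_49847a_an
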